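import Mathlib

set_option autoImplicit false

/-!
A central limit theorem: integer valued random variables whose factorial moments are extremely close
to those of Poisson variables with means tending to infinity.
-/

namespace Pool.Agent.Helper18K9.CLT

open Finset Filter Topology MeasureTheory ProbabilityTheory

/-- Taylor polynomial of `exp (ζ x)` -/
noncomputable def Tp (ζ : ℂ) (K : ℕ) (x : ℝ) : ℂ := ∑ k ∈ range K, (ζ * x) ^ k / (k.factorial : ℂ)

lemma Tp_deriv (ζ : ℂ) (K : ℕ) (x : ℝ) : HasDerivAt (Tp ζ (K + 1)) (ζ * Tp ζ K x) x := by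
  have h1 : Tp ζ (K + 1) = fun x : ℝ => ∑ k ∈ range K, (ζ * x) ^ (k + 1) / ((k + 1).factorial : ℂ) + 1 := by
    funext x
    unfold Tp
    rw [Finset.sum_range_succ']
    simp
  rw [h1]
  refine HasDerivAt.add_const 1 ?_
  unfold Tp
  rw [Finset.mul_sum]
  refine HasDerivAt.fun_sum fun k _ => ?_
  have h2 : HasDerivAt (fun x : ℝ => ζ * (x : ℂ)) (ζ * 1) x := (Complex.ofRealCLM.hasDerivAt).const_mul ζ
  have h3 := (h2.pow (k + 1)).div_const (((k + 1).factorial : ℕ) : ℂ)
  refine h3.congr_deriv ?_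
  have f0 : ((k.factorial : ℕ) : ℂ) ≠ 0 := by exact_mod_cast Nat.factorial_ne_zero k
  rw [Nat.factorial_succ]
  have f1 : ((k : ℂ) + 1) ≠ 0 := by exact_mod_cast Nat.succ_ne_zero k
  push_cast
  field_simp

lemma exp_taylor {ζ : ℂ} (h0 : ζ.re = 0) (h1 : ‖ζ‖ ≤ 1) (K : ℕ) : ∀ x : ℝ, 0 ≤ x →
    ‖Complex.exp (ζ * x) - Tp ζ K x‖ ≤ x ^ K / (K.factorial : ℝ) := by
  induction K with
  | zero =>
    intro x _
    have h2 : ‖Complex.exp (ζ * x)‖ = 1 := by
      rw [Complex.norm_exp]
      simp [h0]
    simp [Tp, h2]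
  | succ K ih =>
    intro x hx
    have hf : ∀ y : ℝ, HasDerivAt (fun x : ℝ => Complex.exp (ζ * x) - Tp ζ (K + 1) x)
        (ζ * (Complex.exp (ζ * y) - Tp ζ K y)) y := by
      intro y
      have h2 : HasDerivAt (fun x : ℝ => ζ * (x : ℂ)) (ζ * 1) y := (Complex.ofRealCLM.hasDerivAt).const_mul ζ
      have h3 := h2.cexp.sub (Tp_deriv ζ K y)
      refine h3.congr_deriv ?_
      ring
    have hB : ∀ y : ℝ, HasDerivAt (fun y : ℝ => y ^ (K + 1) / ((K + 1).factorial : ℝ)) (y ^ K / (K.factorial : ℝ)) y := by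
      intro y
      have h3 := (hasDerivAt_pow (K + 1) y).div_const (((K + 1).factorial : ℕ) : ℝ)
      refine h3.congr_deriv ?_
      have f0 : ((K.factorial : ℕ) : ℝ) ≠ 0 := by exact_mod_cast Nat.factorial_ne_zero K
      have f1 : ((K : ℝ) + 1) ≠ 0 := by positivity
      rw [Nat.factorial_succ]
      push_cast
      field_simp
    have h4 := image_norm_le_of_norm_deriv_right_le_deriv_boundary (a := 0) (b := x)
      (f := fun x : ℝ => Complex.exp (ζ * x) - Tp ζ (K + 1) x)
      (f' := fun y => ζ * (Complex.exp (ζ * y) - Tp ζ K y))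
      (B := fun y : ℝ => y ^ (K + 1) / ((K + 1).factorial : ℝ)) (B' := fun y => y ^ K / (K.factorial : ℝ))
      (fun y _ => (hf y).continuousAt.continuousWithinAt) (fun y _ => (hf y).hasDerivWithinAt)
      (by
        have : Tp ζ (K + 1) 0 = 1 := by
          unfold Tp
          rw [Finset.sum_range_succ']
          simp
        simp [this]) hB (fun y hy => by
        rw [norm_mul]
        calc ‖ζ‖ * ‖Complex.exp (ζ * y) - Tp ζ K y‖ ≤ 1 * (y ^ K / (K.factorial : ℝ)) :=
              mul_le_mul h1 (ih y hy.1) (norm_nonneg _) zero_le_one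
          _ = _ := one_mul _)
    exact h4 ⟨hx, le_rfl⟩

/-- two-sided version on the imaginary axis -/
lemma exp_taylor_I (K : ℕ) (x : ℝ) :
    ‖Complex.exp (Complex.I * x) - Tp Complex.I K x‖ ≤ |x| ^ K / (K.factorial : ℝ) := by
  rcases le_or_gt 0 x with hx | hx
  · rw [abs_of_nonneg hx]
    exact exp_taylor (by simp) (by simp) K x hx
  · have h := exp_taylor (ζ := -Complex.I) (by simp) (by simp) K (-x) (by linarith)
    rw [abs_of_neg hx]
    have e1 : -Complex.I * ((-x : ℝ) : ℂ) = Complex.I * x := by push_cast; ring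
    have e2 : Tp (-Complex.I) K (-x) = Tp Complex.I K x := by
      unfold Tp
      rw [e1]
    rw [e1, e2] at h
    exact h

/-- expansion of `(x - u) ^ k * choose x j` in binomials, with coefficients of polynomial growth -/
lemma expand (k : ℕ) : ∀ j : ℕ, ∃ (R : ℕ) (a : ℕ → ℝ → ℝ) (C : ℝ), 0 ≤ C ∧
    (∀ i u, 0 ≤ u → |a i u| ≤ C * (1 + u) ^ k) ∧
    ∀ (x : ℕ) (u : ℝ), ((x : ℝ) - u) ^ k * (x.choose j : ℝ) = ∑ i ∈ range R, a i u * (x.choose i : ℝ) := by
  induction k with
  | zero =>
    intro j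
    refine ⟨j + 1, fun i _ => if i = j then 1 else 0, 1, zero_le_one, fun i u _ => ?_, fun x u => ?_⟩
    · simp only
      split_ifs <;> simp
    · rw [pow_zero, one_mul, Finset.sum_eq_single j]
      · simp
      · intro i _ hi
        simp only
        rw [if_neg hi, zero_mul]
      · intro hj
        exact absurd (Finset.mem_range.2 (Nat.lt_succ_self j)) hj
  | succ k ih =>
    intro j
    obtain ⟨R1, a1, C1, hC1, hb1, he1⟩ := ih (j + 1)
    obtain ⟨R2, a2, C2, hC2, hb2, he2⟩ := ih j
    refine ⟨max R1 R2, fun i u => (j + 1) * (if i < R1 then a1 i u else 0) + (j - u) * (if i < R2 then a2 i u else 0),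
      (j + 1) * C1 + (j + 1) * C2, by positivity, fun i u hu => ?_, fun x u => ?_⟩
    · have h1 : |(if i < R1 then a1 i u else 0)| ≤ C1 * (1 + u) ^ k := by
        split_ifs
        · exact hb1 i u hu
        · rw [abs_zero]; positivity
      have h2 : |(if i < R2 then a2 i u else 0)| ≤ C2 * (1 + u) ^ k := by
        split_ifs
        · exact hb2 i u hu
        · rw [abs_zero]; positivity
      have hj : (0 : ℝ) ≤ j := Nat.cast_nonneg j
      have h3 : |(j : ℝ) - u| ≤ (j + 1) * (1 + u) := by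
        rw [abs_le]
        constructor <;> nlinarith
      have h4 : (j + 1 : ℝ) * (C1 * (1 + u) ^ k) ≤ (j + 1) * C1 * (1 + u) ^ (k + 1) := by
        rw [pow_succ]
        have : 0 ≤ (j + 1 : ℝ) * C1 * (1 + u) ^ k := by positivity
        nlinarith
      calc |(j + 1 : ℝ) * (if i < R1 then a1 i u else 0) + (j - u) * (if i < R2 then a2 i u else 0)|
          ≤ |(j + 1 : ℝ) * (if i < R1 then a1 i u else 0)| + |(j - u) * (if i < R2 then a2 i u else 0)| := abs_add_le _ _
        _ = (j + 1 : ℝ) * |(if i < R1 then a1 i u else 0)| + |(j : ℝ) - u| * |(if i < R2 then a2 i u else 0)| := by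
            rw [abs_mul, abs_mul, abs_of_nonneg (by positivity : (0 : ℝ) ≤ j + 1)]
        _ ≤ (j + 1 : ℝ) * (C1 * (1 + u) ^ k) + ((j + 1) * (1 + u)) * (C2 * (1 + u) ^ k) := by
            gcongr
        _ ≤ (j + 1 : ℝ) * C1 * (1 + u) ^ (k + 1) + ((j + 1) * (1 + u)) * (C2 * (1 + u) ^ k) := by linarith
        _ = _ := by ring
    · have hx : (x : ℝ) * (x.choose j : ℝ) = (j + 1) * (x.choose (j + 1) : ℝ) + j * (x.choose j : ℝ) := by
        have h1 := Nat.choose_succ_right_eq x j
        rcases le_or_gt j x with h2 | h2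
        · have h3 : (x.choose (j + 1) : ℝ) * (j + 1) = (x.choose j : ℝ) * (x - j) := by
            have h4 : ((x - j : ℕ) : ℝ) = x - j := Nat.cast_sub h2
            rw [← h4]
            exact_mod_cast h1
          linarith
        · rw [Nat.choose_eq_zero_of_lt h2, Nat.choose_eq_zero_of_lt (by omega : x < j + 1)]
          simp
      have e : ((x : ℝ) - u) ^ (k + 1) * (x.choose j : ℝ) =
          (j + 1) * (((x : ℝ) - u) ^ k * (x.choose (j + 1) : ℝ)) + (j - u) * (((x : ℝ) - u) ^ k * (x.choose j : ℝ)) := by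
        rw [pow_succ]
        have : ((x : ℝ) - u) * (x.choose j : ℝ) = (j + 1) * (x.choose (j + 1) : ℝ) + (j - u) * (x.choose j : ℝ) := by
          linarith
        calc ((x : ℝ) - u) ^ k * ((x : ℝ) - u) * (x.choose j : ℝ) = ((x : ℝ) - u) ^ k * (((x : ℝ) - u) * (x.choose j : ℝ)) := by ring
          _ = _ := by rw [this]; ring
      have s1 : ∑ i ∈ range R1, a1 i u * (x.choose i : ℝ) =
          ∑ i ∈ range (max R1 R2), (if i < R1 then a1 i u else 0) * (x.choose i : ℝ) := by
        rw [← Finset.sum_filter_add_sum_filter_not (range (max R1 R2)) (fun i => i < R1)]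
        have f1 : (range (max R1 R2)).filter (fun i => i < R1) = range R1 := by
          ext i; simp only [Finset.mem_filter, Finset.mem_range, lt_max_iff]; omega
        rw [f1]
        have f2 : ∑ i ∈ (range (max R1 R2)).filter (fun i => ¬ i < R1), (if i < R1 then a1 i u else 0) * (x.choose i : ℝ) = 0 := by
          refine Finset.sum_eq_zero fun i hi => ?_
          rw [Finset.mem_filter] at hi
          rw [if_neg hi.2, zero_mul]
        rw [f2, add_zero]
        refine Finset.sum_congr rfl fun i hi => ?_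
        rw [if_pos (Finset.mem_range.1 hi)]
      have s2 : ∑ i ∈ range R2, a2 i u * (x.choose i : ℝ) =
          ∑ i ∈ range (max R1 R2), (if i < R2 then a2 i u else 0) * (x.choose i : ℝ) := by
        rw [← Finset.sum_filter_add_sum_filter_not (range (max R1 R2)) (fun i => i < R2)]
        have f1 : (range (max R1 R2)).filter (fun i => i < R2) = range R2 := by
          ext i; simp only [Finset.mem_filter, Finset.mem_range, lt_max_iff]; omega
        rw [f1]
        have f2 : ∑ i ∈ (range (max R1 R2)).filter (fun i => ¬ i < R2), (if i < R2 then a2 i u else 0) * (x.choose i : ℝ) = 0 := by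
          refine Finset.sum_eq_zero fun i hi => ?_
          rw [Finset.mem_filter] at hi
          rw [if_neg hi.2, zero_mul]
        rw [f2, add_zero]
        refine Finset.sum_congr rfl fun i hi => ?_
        rw [if_pos (Finset.mem_range.1 hi)]
      rw [e, he1 x u, he2 x u, s1, s2, Finset.mul_sum, Finset.mul_sum, ← Finset.sum_add_distrib]
      exact Finset.sum_congr rfl fun i _ => by ring

section

open scoped NNReal

/-- integrability for the Poisson distribution -/
lemma int_po (r : ℝ≥0) {f : ℕ → ℝ} {A B : ℝ} (hA : 0 ≤ A) (hB : 0 ≤ B) (h : ∀ n, |f n| ≤ A * B ^ n) :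
    Integrable f (poissonMeasure r) := by
  rw [integrable_poissonMeasure_iff]
  have h1 : Summable (fun n : ℕ => Real.exp (-r) * A * (((r : ℝ) * B) ^ n / (n.factorial : ℝ))) :=
    (Real.summable_pow_div_factorial ((r : ℝ) * B)).mul_left _
  refine Summable.of_nonneg_of_le (fun n => by positivity) (fun n => ?_) h1
  rw [Real.norm_eq_abs, mul_pow]
  calc Real.exp (-r) * (r : ℝ) ^ n / (n.factorial : ℝ) * |f n| ≤
        Real.exp (-r) * (r : ℝ) ^ n / (n.factorial : ℝ) * (A * B ^ n) := by
        gcongr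
        exact h n
    _ = _ := by ring

lemma po_choose (r : ℝ≥0) (i : ℕ) : ∫ n, (n.choose i : ℝ) ∂(poissonMeasure r) = (r : ℝ) ^ i / (i.factorial : ℝ) := by
  have hi : Integrable (fun n : ℕ => (n.choose i : ℝ)) (poissonMeasure r) := by
    refine int_po r (A := 1) (B := 2) zero_le_one two_pos.le fun n => ?_
    rw [Nat.abs_cast, one_mul]
    exact_mod_cast Nat.choose_le_two_pow n i
  have h1 := hasSum_integral_poissonMeasure hi
  refine h1.unique ?_
  have h2 : HasSum (fun m : ℕ => Real.exp (-r) * ((r : ℝ) ^ i / (i.factorial : ℝ)) * ((r : ℝ) ^ m / (m.factorial : ℝ)))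
      (Real.exp (-r) * ((r : ℝ) ^ i / (i.factorial : ℝ)) * Real.exp r) := by
    have := NormedSpace.expSeries_div_hasSum_exp (r : ℝ)
    rw [← Real.exp_eq_exp_ℝ] at this
    exact this.mul_left _
  have e : Real.exp (-r) * ((r : ℝ) ^ i / (i.factorial : ℝ)) * Real.exp r = (r : ℝ) ^ i / (i.factorial : ℝ) := by
    rw [Real.exp_neg]
    have := (Real.exp_pos (r : ℝ)).ne'
    field_simp
  rw [e] at h2
  rw [← hasSum_nat_add_iff' i]
  have h3 : ∑ n ∈ range i, (Real.exp (-r) * (r : ℝ) ^ n / (n.factorial : ℝ)) • (n.choose i : ℝ) = 0 := by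
    refine Finset.sum_eq_zero fun n hn => ?_
    rw [Nat.choose_eq_zero_of_lt (Finset.mem_range.1 hn)]
    simp
  rw [h3, sub_zero]
  refine h2.congr_fun fun m => ?_
  rw [smul_eq_mul]
  have h4 : ((m + i).choose i : ℝ) = (m + i).factorial / (i.factorial * m.factorial) := by
    rw [Nat.cast_choose ℝ (Nat.le_add_left i m), Nat.add_sub_cancel]
  rw [h4, pow_add]
  have f1 : ((m + i).factorial : ℝ) ≠ 0 := by exact_mod_cast Nat.factorial_ne_zero _
  have f2 : (m.factorial : ℝ) ≠ 0 := by exact_mod_cast Nat.factorial_ne_zero _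
  have f3 : (i.factorial : ℝ) ≠ 0 := by exact_mod_cast Nat.factorial_ne_zero _
  field_simp

lemma po_exp (r : ℝ≥0) (s : ℝ) : ∫ n, Real.exp (s * ((n : ℝ) - r)) ∂(poissonMeasure r) =
    Real.exp (r * (Real.exp s - 1 - s)) := by
  have hi : Integrable (fun n : ℕ => Real.exp (s * ((n : ℝ) - r))) (poissonMeasure r) := by
    refine int_po r (A := Real.exp (-(s * r))) (B := Real.exp s) (Real.exp_pos _).le (Real.exp_pos _).le fun n => ?_
    rw [abs_of_pos (Real.exp_pos _), ← Real.exp_nat_mul, ← Real.exp_add]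
    apply le_of_eq
    congr 1
    ring
  refine (hasSum_integral_poissonMeasure hi).unique ?_
  have h2 : HasSum (fun n : ℕ => Real.exp (-r) * Real.exp (-(s * r)) * (((r : ℝ) * Real.exp s) ^ n / (n.factorial : ℝ)))
      (Real.exp (-r) * Real.exp (-(s * r)) * Real.exp (r * Real.exp s)) := by
    have := NormedSpace.expSeries_div_hasSum_exp ((r : ℝ) * Real.exp s)
    rw [← Real.exp_eq_exp_ℝ] at this
    exact this.mul_left _
  have e : Real.exp (-r) * Real.exp (-(s * r)) * Real.exp (r * Real.exp s) = Real.exp (r * (Real.exp s - 1 - s)) := by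
    rw [← Real.exp_add, ← Real.exp_add]
    congr 1
    ring
  rw [e] at h2
  refine h2.congr_fun fun n => ?_
  rw [smul_eq_mul, mul_pow, ← Real.exp_nat_mul]
  have e2 : Real.exp (s * ((n : ℝ) - r)) = Real.exp (n * s) * Real.exp (-(s * r)) := by
    rw [← Real.exp_add]; congr 1; ring
  rw [e2]
  ring

lemma int_po_pow (r : ℝ≥0) (k : ℕ) : Integrable (fun n : ℕ => ((n : ℝ) - r) ^ k) (poissonMeasure r) := by
  refine int_po r (A := k.factorial * Real.exp r) (B := Real.exp 1) (by positivity) (Real.exp_pos _).le fun n => ?_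
  rw [abs_pow]
  have h1 := Real.pow_div_factorial_le_exp (x := |(n : ℝ) - r|) (abs_nonneg _) k
  have f3 : (0 : ℝ) < (k.factorial : ℝ) := by exact_mod_cast Nat.factorial_pos _
  rw [div_le_iff₀ f3] at h1
  refine h1.trans ?_
  have h2 : |(n : ℝ) - r| ≤ r + n * 1 := by
    rw [abs_le]
    have h3 : (0 : ℝ) ≤ r := r.2
    have h4 : (0 : ℝ) ≤ n := Nat.cast_nonneg n
    constructor <;> linarith
  calc Real.exp |(n : ℝ) - r| * k.factorial ≤ Real.exp (r + n * 1) * k.factorial := by gcongr
    _ = _ := by rw [Real.exp_add, ← Real.exp_nat_mul]; ring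

/-- central moments of even order of the Poisson distribution -/
lemma po_moment (r : ℝ≥0) {s : ℝ} (hs : 0 < s) (K : ℕ) (hK : Even K) :
    ∫ n, ((n : ℝ) - r) ^ K ∂(poissonMeasure r) ≤ (K.factorial : ℝ) / s ^ K *
      (Real.exp (r * (Real.exp s - 1 - s)) + Real.exp (r * (Real.exp (-s) - 1 + s))) := by
  have h1 := po_exp r s
  have h2 := po_exp r (-s)
  rw [sub_neg_eq_add] at h2
  have hi1 : Integrable (fun n : ℕ => Real.exp (s * ((n : ℝ) - r))) (poissonMeasure r) := by
    refine int_po r (A := Real.exp (-(s * r))) (B := Real.exp s) (Real.exp_pos _).le (Real.exp_pos _).le fun n => ?_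
    rw [abs_of_pos (Real.exp_pos _), ← Real.exp_nat_mul, ← Real.exp_add]
    apply le_of_eq
    congr 1
    ring
  have hi2 : Integrable (fun n : ℕ => Real.exp (-s * ((n : ℝ) - r))) (poissonMeasure r) := by
    refine int_po r (A := Real.exp (s * r)) (B := Real.exp (-s)) (Real.exp_pos _).le (Real.exp_pos _).le fun n => ?_
    rw [abs_of_pos (Real.exp_pos _), ← Real.exp_nat_mul, ← Real.exp_add]
    apply le_of_eq
    congr 1
    ring
  rw [← h1, ← h2, ← integral_add hi1 hi2, ← integral_const_mul]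
  refine integral_mono (int_po_pow r K) ((hi1.add hi2).const_mul _) fun n => ?_
  simp only
  have h3 := Real.pow_div_factorial_le_exp (x := |s * ((n : ℝ) - r)|) (abs_nonneg _) K
  have f3 : (0 : ℝ) < (K.factorial : ℝ) := by exact_mod_cast Nat.factorial_pos _
  rw [div_le_iff₀ f3, ← abs_pow, mul_pow, abs_of_nonneg (mul_nonneg (by positivity) (hK.pow_nonneg _))] at h3
  have h4 : Real.exp |s * ((n : ℝ) - r)| ≤ Real.exp (s * ((n : ℝ) - r)) + Real.exp (-s * ((n : ℝ) - r)) := by
    rcases abs_cases (s * ((n : ℝ) - r)) with ⟨h, _⟩ | ⟨h, _⟩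
    · rw [h]
      have := Real.exp_pos (-s * ((n : ℝ) - r))
      linarith
    · rw [h, neg_mul]
      have := Real.exp_pos (s * ((n : ℝ) - r))
      linarith
  have hsK : 0 < s ^ K := by positivity
  rw [div_mul_eq_mul_div, le_div_iff₀ hsK]
  calc ((n : ℝ) - r) ^ K * s ^ K = s ^ K * ((n : ℝ) - r) ^ K := by ring
    _ ≤ Real.exp |s * ((n : ℝ) - r)| * K.factorial := h3
    _ ≤ (Real.exp (s * ((n : ℝ) - r)) + Real.exp (-s * ((n : ℝ) - r))) * K.factorial := by gcongr
    _ = _ := by ring

end

end Pool.Agent.Helper18K9.CLT
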