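import Mathlib
import Pool.Agent.Helper18K9.CLT.Abs

set_option autoImplicit false

/-!
The characteristic functions converge.
-/

namespace Pool.Agent.Helper18K9.CLT

open Finset Filter Topology MeasureTheory ProbabilityTheory
open scoped NNReal

/-- Taylor expansion of a characteristic function, with the exact remainder -/
lemma taylor_char {Ω : Type} [MeasurableSpace Ω] {Q : Measure Ω} [IsProbabilityMeasure Q] {X : Ω → ℝ}
    (hX : Measurable X) (hint : ∀ k : ℕ, Integrable (fun ω => X ω ^ k) Q) (θ : ℝ) {K : ℕ} (hK : Even K) :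
    ‖∫ ω, Complex.exp (Complex.I * ((θ * X ω : ℝ) : ℂ)) ∂Q -
      ∑ k ∈ range K, (Complex.I * θ) ^ k / (k.factorial : ℂ) * ((∫ ω, X ω ^ k ∂Q : ℝ) : ℂ)‖ ≤
      |θ| ^ K / (K.factorial : ℝ) * ∫ ω, X ω ^ K ∂Q := by
  have hintC : ∀ k : ℕ, Integrable (fun ω => (Complex.I * θ) ^ k / (k.factorial : ℂ) * ((X ω ^ k : ℝ) : ℂ)) Q :=
    fun k => ((hint k).ofReal).const_mul _
  have e1 : ∑ k ∈ range K, (Complex.I * θ) ^ k / (k.factorial : ℂ) * ((∫ ω, X ω ^ k ∂Q : ℝ) : ℂ) =
      ∫ ω, Tp Complex.I K (θ * X ω) ∂Q := by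
    unfold Tp
    have e2 : ∀ ω, ∑ k ∈ range K, (Complex.I * ((θ * X ω : ℝ) : ℂ)) ^ k / (k.factorial : ℂ) =
        ∑ k ∈ range K, (Complex.I * θ) ^ k / (k.factorial : ℂ) * ((X ω ^ k : ℝ) : ℂ) := by
      intro ω
      refine Finset.sum_congr rfl fun k _ => ?_
      push_cast
      ring
    simp_rw [e2]
    rw [integral_finsetSum _ fun k _ => hintC k]
    refine Finset.sum_congr rfl fun k _ => ?_
    rw [integral_const_mul]
    congr 1
    exact (integral_complex_ofReal).symm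
  have hexp : Integrable (fun ω => Complex.exp (Complex.I * ((θ * X ω : ℝ) : ℂ))) Q := by
    refine Integrable.of_bound (C := 1) ?_ (Eventually.of_forall fun ω => ?_)
    · refine Measurable.aestronglyMeasurable ?_
      exact Complex.measurable_exp.comp ((Complex.measurable_ofReal.comp (hX.const_mul θ)).const_mul _)
    · rw [Complex.norm_exp]
      simp
  have hTp : Integrable (fun ω => Tp Complex.I K (θ * X ω)) Q := by
    have e2 : (fun ω => Tp Complex.I K (θ * X ω)) = fun ω =>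
        ∑ k ∈ range K, (Complex.I * θ) ^ k / (k.factorial : ℂ) * ((X ω ^ k : ℝ) : ℂ) := by
      funext ω
      unfold Tp
      refine Finset.sum_congr rfl fun k _ => ?_
      push_cast
      ring
    rw [e2]
    exact integrable_finsetSum _ fun k _ => hintC k
  rw [e1, ← integral_sub hexp hTp, ← integral_const_mul]
  refine (norm_integral_le_integral_norm _).trans (integral_mono (hexp.sub hTp).norm ((hint K).const_mul _) fun ω => ?_)
  refine (exp_taylor_I K (θ * X ω)).trans (le_of_eq ?_)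
  rw [abs_mul, mul_pow, hK.pow_abs, hK.pow_abs]
  ring

/-- the characteristic function of the centred Poisson distribution -/
lemma po_char (r : ℝ≥0) (θ : ℝ) :
    ∫ n, Complex.exp (Complex.I * ((θ * ((n : ℝ) - r) : ℝ) : ℂ)) ∂(poissonMeasure r) =
      Complex.exp (r * (Complex.exp (Complex.I * θ) - 1 - Complex.I * θ)) := by
  have h1 := charFun_map_cast_poissonMeasure r θ
  rw [charFun_apply_real, integral_map .of_discrete (by fun_prop)] at h1
  have e : ∀ n : ℕ, Complex.exp (Complex.I * ((θ * ((n : ℝ) - r) : ℝ) : ℂ)) =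
      Complex.exp (-(Complex.I * θ * r)) * Complex.exp (θ * ((n : ℝ) : ℂ) * Complex.I) := by
    intro n
    rw [← Complex.exp_add]
    congr 1
    push_cast
    ring
  simp_rw [e]
  rw [integral_const_mul, h1, ← Complex.exp_add]
  congr 1
  rw [mul_comm (θ : ℂ) Complex.I]
  ring

lemma po_char_lim {μ v : ℕ → ℝ} (hμ0 : ∀ n, 0 ≤ μ n) (hμ : Tendsto μ atTop atTop)
    (hv : Tendsto (fun n => v n / μ n) atTop (𝓝 1)) (t : ℝ) :
    Tendsto (fun n => Complex.exp (μ n * (Complex.exp (Complex.I * ((t / Real.sqrt (v n) : ℝ) : ℂ)) - 1 -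
      Complex.I * ((t / Real.sqrt (v n) : ℝ) : ℂ)))) atTop (𝓝 (Complex.exp (-(t : ℂ) ^ 2 / 2))) := by
  refine (Complex.continuous_exp.tendsto _).comp ?_
  have hv1 : ∀ᶠ n in atTop, μ n / 2 ≤ v n ∧ 1 ≤ μ n := by
    filter_upwards [hv.eventually_const_lt (show (1 / 2 : ℝ) < 1 by norm_num), hμ.eventually_ge_atTop 1] with n h1 h2
    rw [lt_div_iff₀ (by linarith)] at h1
    exact ⟨by linarith, h2⟩
  have h1 : Tendsto (fun n => ((-(μ n / v n) * t ^ 2 / 2 : ℝ) : ℂ)) atTop (𝓝 (-(t : ℂ) ^ 2 / 2)) := by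
    have h2 : Tendsto (fun n => μ n / v n) atTop (𝓝 1) := by
      have := hv.inv₀ one_ne_zero
      rw [inv_one] at this
      exact this.congr fun n => by rw [inv_div]
    have h3 : Tendsto (fun n => -(μ n / v n) * t ^ 2 / 2) atTop (𝓝 (-1 * t ^ 2 / 2)) :=
      ((h2.neg).mul_const _).div_const _
    have h4 : Tendsto (fun n => ((-(μ n / v n) * t ^ 2 / 2 : ℝ) : ℂ)) atTop (𝓝 ((-1 * t ^ 2 / 2 : ℝ) : ℂ)) :=
      (Complex.continuous_ofReal.tendsto _).comp h3
    have e : ((-1 * t ^ 2 / 2 : ℝ) : ℂ) = -(t : ℂ) ^ 2 / 2 := by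
      push_cast
      ring
    rw [e] at h4
    exact h4
  have h5 : Tendsto (fun n => μ n * (Complex.exp (Complex.I * ((t / Real.sqrt (v n) : ℝ) : ℂ)) - 1 -
      Complex.I * ((t / Real.sqrt (v n) : ℝ) : ℂ)) - ((-(μ n / v n) * t ^ 2 / 2 : ℝ) : ℂ)) atTop (𝓝 0) := by
    have h6 : Tendsto (fun n => |t| ^ 3 * 8 * (Real.sqrt (μ n))⁻¹) atTop (𝓝 0) := by
      have := ((Real.tendsto_sqrt_atTop.comp hμ).inv_tendsto_atTop).const_mul (|t| ^ 3 * 8)
      rw [mul_zero] at this
      exact this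
    refine squeeze_zero_norm' ?_ h6
    filter_upwards [hv1] with n ⟨hn1, hn2⟩
    have hμn : 0 < μ n := by linarith
    have hvn : 0 < v n := by linarith
    have hsv : 0 < Real.sqrt (v n) := Real.sqrt_pos.2 hvn
    have hsm : 0 < Real.sqrt (μ n) := Real.sqrt_pos.2 hμn
    set θ := t / Real.sqrt (v n) with hθ
    have e1 : (((-(μ n / v n) * t ^ 2 / 2 : ℝ)) : ℂ) = μ n * (-((θ : ℂ)) ^ 2 / 2) := by
      have : -(μ n / v n) * t ^ 2 / 2 = μ n * (-θ ^ 2 / 2) := by
        rw [hθ, div_pow, Real.sq_sqrt hvn.le]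
        field_simp
      rw [this]
      push_cast
      ring
    have h7 := exp_taylor_I 3 θ
    have e2 : Tp Complex.I 3 θ = 1 + Complex.I * θ + -((θ : ℂ)) ^ 2 / 2 := by
      unfold Tp
      simp only [Finset.sum_range_succ, Finset.sum_range_zero, pow_zero, pow_one, Nat.factorial, Nat.cast_one,
        zero_add, div_one]
      have : (Complex.I * (θ : ℂ)) ^ 2 = -(θ : ℂ) ^ 2 := by rw [mul_pow, Complex.I_sq]; ring
      rw [this]
      push_cast
      ring
    rw [e2] at h7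
    rw [e1]
    have e3 : (μ n : ℂ) * (Complex.exp (Complex.I * θ) - 1 - Complex.I * θ) - μ n * (-((θ : ℂ)) ^ 2 / 2) =
        μ n * (Complex.exp (Complex.I * θ) - (1 + Complex.I * θ + -((θ : ℂ)) ^ 2 / 2)) := by ring
    rw [e3, norm_mul, Complex.norm_real, Real.norm_of_nonneg hμn.le]
    have h8 : |θ| ≤ |t| * 2 / Real.sqrt (μ n) := by
      rw [hθ, abs_div, abs_of_pos hsv, div_le_div_iff₀ hsv hsm]
      have h9 : Real.sqrt (μ n) ≤ 2 * Real.sqrt (v n) := by
        rw [Real.sqrt_le_left (by positivity), mul_pow, Real.sq_sqrt hvn.le]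
        linarith
      have := abs_nonneg t
      nlinarith
    have f3 : ((3 : ℕ).factorial : ℝ) = 6 := by norm_num [Nat.factorial]
    rw [f3] at h7
    calc μ n * ‖Complex.exp (Complex.I * θ) - (1 + Complex.I * θ + -((θ : ℂ)) ^ 2 / 2)‖ ≤
          μ n * (|θ| ^ 3 / 6) := mul_le_mul_of_nonneg_left h7 hμn.le
      _ ≤ μ n * ((|t| * 2 / Real.sqrt (μ n)) ^ 3 / 1) := by
          gcongr
          norm_num
      _ = |t| ^ 3 * 8 * (Real.sqrt (μ n))⁻¹ := by
          have h10 : μ n = Real.sqrt (μ n) ^ 2 := (Real.sq_sqrt hμn.le).symm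
          conv_lhs => rw [h10]
          rw [Real.sqrt_sq hsm.le]
          field_simp
          ring
  have h11 := h5.add h1
  rw [zero_add] at h11
  refine h11.congr fun n => ?_
  ring

lemma alg1 (x s f E : ℝ) (hf : f ≠ 0) (hs : s ≠ 0) (K : ℕ) :
    x ^ K / f * (f / s ^ K * (E + E)) = 2 * E * (x / s) ^ K := by
  rw [div_pow]
  field_simp
  ring

/-- **Convergence of the characteristic functions.** -/
theorem clt_char {Ω : Type} [MeasurableSpace Ω] {P : Measure Ω} [IsProbabilityMeasure P] {N : ℕ → Ω → ℕ}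
    (hN : ∀ n, Measurable (N n)) (hB : ∀ n, ∃ B, ∀ ω, N n ω ≤ B) {μ v : ℕ → ℝ} (hμ0 : ∀ n, 0 ≤ μ n)
    (hμ : Tendsto μ atTop atTop) (hv : Tendsto (fun n => v n / μ n) atTop (𝓝 1))
    (hmom : ∀ k K : ℕ, Tendsto (fun n => μ n ^ K *
      |∫ ω, ((N n ω).choose k : ℝ) ∂P - μ n ^ k / (k.factorial : ℝ)|) atTop (𝓝 0)) (t : ℝ) :
    Tendsto (fun n => ∫ ω, Complex.exp (Complex.I * ((t / Real.sqrt (v n) * ((N n ω : ℝ) - μ n) : ℝ) : ℂ)) ∂P)
      atTop (𝓝 (Complex.exp (-(t : ℂ) ^ 2 / 2))) := by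
  set r : ℕ → ℝ≥0 := fun n => (μ n).toNNReal with hr
  have hrn : ∀ n, ((r n : ℝ≥0) : ℝ) = μ n := fun n => Real.coe_toNNReal _ (hμ0 n)
  -- integrability
  have hic : ∀ n k, Integrable (fun ω => ((N n ω).choose k : ℝ)) P := by
    intro n k
    obtain ⟨B, hB'⟩ := hB n
    refine Integrable.of_bound (C := (2 : ℝ) ^ B) ?_ (Eventually.of_forall fun ω => ?_)
    · exact ((measurable_from_nat (f := fun x : ℕ => (x.choose k : ℝ))).comp (hN n)).aestronglyMeasurable
    · rw [Real.norm_of_nonneg (Nat.cast_nonneg _)]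
      exact_mod_cast (Nat.choose_le_two_pow _ _).trans (Nat.pow_le_pow_right (by norm_num) (hB' ω))
  have hip : ∀ n k, Integrable (fun ω => ((N n ω : ℝ) - μ n) ^ k) P := by
    intro n k
    obtain ⟨B, hB'⟩ := hB n
    refine Integrable.of_bound (C := ((B : ℝ) + μ n) ^ k) ?_ (Eventually.of_forall fun ω => ?_)
    · exact ((measurable_from_nat (f := fun x : ℕ => ((x : ℝ) - μ n) ^ k)).comp (hN n)).aestronglyMeasurable
    · rw [norm_pow]
      refine pow_le_pow_left₀ (norm_nonneg _) ?_ _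
      have h1 : (N n ω : ℝ) ≤ B := by exact_mod_cast hB' ω
      have h2 : (0 : ℝ) ≤ N n ω := Nat.cast_nonneg _
      have h3 : (0 : ℝ) ≤ B := Nat.cast_nonneg _
      rw [Real.norm_eq_abs, abs_le]
      have := hμ0 n
      constructor <;> linarith
  -- difference of the central moments
  have hdiff : ∀ k, Tendsto (fun n => |∫ ω, ((N n ω : ℝ) - μ n) ^ k ∂P -
      ∫ x, ((x : ℝ) - r n) ^ k ∂(poissonMeasure (r n))|) atTop (𝓝 0) := by
    intro k
    obtain ⟨R, a, C, hC, hb, he⟩ := expand k 0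
    simp only [Nat.choose_zero_right, Nat.cast_one, mul_one] at he
    have e1 : ∀ n, ∫ ω, ((N n ω : ℝ) - μ n) ^ k ∂P = ∑ i ∈ range R, a i (μ n) * ∫ ω, ((N n ω).choose i : ℝ) ∂P := by
      intro n
      simp_rw [he _ (μ n)]
      rw [integral_finsetSum _ fun i _ => (hic n i).const_mul _]
      exact Finset.sum_congr rfl fun i _ => integral_const_mul _ _
    have hpc : ∀ n i, Integrable (fun x : ℕ => (x.choose i : ℝ)) (poissonMeasure (r n)) := by
      intro n i
      refine int_po (r n) (A := 1) (B := 2) zero_le_one two_pos.le fun x => ?_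
      rw [Nat.abs_cast, one_mul]
      exact_mod_cast Nat.choose_le_two_pow x i
    have e2 : ∀ n, ∫ x, ((x : ℝ) - r n) ^ k ∂(poissonMeasure (r n)) =
        ∑ i ∈ range R, a i (μ n) * (μ n ^ i / (i.factorial : ℝ)) := by
      intro n
      rw [hrn n]
      simp_rw [he _ (μ n)]
      rw [integral_finsetSum _ fun i _ => (hpc n i).const_mul _]
      refine Finset.sum_congr rfl fun i _ => ?_
      rw [integral_const_mul, po_choose, hrn n]
    have h1 : Tendsto (fun n => ∑ i ∈ range R, C * 2 ^ k * (μ n ^ k *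
        |∫ ω, ((N n ω).choose i : ℝ) ∂P - μ n ^ i / (i.factorial : ℝ)|)) atTop (𝓝 0) := by
      have : Tendsto (fun n => ∑ i ∈ range R, C * 2 ^ k * (μ n ^ k *
        |∫ ω, ((N n ω).choose i : ℝ) ∂P - μ n ^ i / (i.factorial : ℝ)|)) atTop (𝓝 (∑ i ∈ range R, C * 2 ^ k * 0)) :=
        tendsto_finsetSum _ fun i _ => (hmom i k).const_mul _
      simpa using this
    refine squeeze_zero' (Eventually.of_forall fun n => abs_nonneg _) ?_ h1
    filter_upwards [hμ.eventually_ge_atTop 1] with n hn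
    rw [e1, e2, ← Finset.sum_sub_distrib]
    refine (Finset.abs_sum_le_sum_abs _ _).trans (Finset.sum_le_sum fun i _ => ?_)
    rw [← mul_sub, abs_mul]
    have h2 : |a i (μ n)| ≤ C * 2 ^ k * μ n ^ k := by
      refine (hb i _ (hμ0 n)).trans ?_
      rw [mul_assoc, ← mul_pow]
      refine mul_le_mul_of_nonneg_left (pow_le_pow_left₀ (by linarith) (by linarith) _) hC
    calc |a i (μ n)| * |∫ ω, ((N n ω).choose i : ℝ) ∂P - μ n ^ i / (i.factorial : ℝ)| ≤
          (C * 2 ^ k * μ n ^ k) * |∫ ω, ((N n ω).choose i : ℝ) ∂P - μ n ^ i / (i.factorial : ℝ)| := by gcongr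
      _ = _ := by ring
  have hY := po_char_lim hμ0 hμ hv t
  have hcmp : Tendsto (fun n => ‖∫ ω, Complex.exp (Complex.I * ((t / Real.sqrt (v n) * ((N n ω : ℝ) - μ n) : ℝ) : ℂ)) ∂P -
      Complex.exp (μ n * (Complex.exp (Complex.I * ((t / Real.sqrt (v n) : ℝ) : ℂ)) - 1 -
      Complex.I * ((t / Real.sqrt (v n) : ℝ) : ℂ)))‖) atTop (𝓝 0) := by
    rw [Metric.tendsto_nhds]
    intro ε hε
    set σ := 4 * |t| + 4 with hσ
    have hσ0 : 0 < σ := by positivity
    obtain ⟨j, hj⟩ : ∃ j : ℕ, 4 * Real.exp (σ ^ 2) * (1 / 2) ^ (2 * j) < ε / 2 := by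
      have h1 : Tendsto (fun j : ℕ => 4 * Real.exp (σ ^ 2) * ((1 / 2 : ℝ) ^ 2) ^ j) atTop (𝓝 (4 * Real.exp (σ ^ 2) * 0)) :=
        (tendsto_pow_atTop_nhds_zero_of_lt_one (by norm_num) (by norm_num)).const_mul _
      rw [mul_zero] at h1
      obtain ⟨j, hj⟩ := (h1.eventually_lt_const (show (0 : ℝ) < ε / 2 by positivity)).exists
      exact ⟨j, by rw [pow_mul]; exact hj⟩
    set K := 2 * j with hK
    have hKe : Even K := ⟨j, by omega⟩
    have hS : Tendsto (fun n => ∑ k ∈ range (K + 1), |∫ ω, ((N n ω : ℝ) - μ n) ^ k ∂P -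
      ∫ x, ((x : ℝ) - r n) ^ k ∂(poissonMeasure (r n))|) atTop (𝓝 0) := by
      have := tendsto_finsetSum (range (K + 1)) fun k _ => hdiff k
      simpa using this
    have hv1 : ∀ᶠ n in atTop, μ n / 4 ≤ v n ∧ σ ^ 2 ≤ μ n := by
      filter_upwards [hv.eventually_const_lt (show (1 / 4 : ℝ) < 1 by norm_num),
        hμ.eventually_ge_atTop (max 1 (σ ^ 2))] with n h1 h2
      have h3 : 1 ≤ μ n := (le_max_left _ _).trans h2
      rw [lt_div_iff₀ (by linarith)] at h1
      exact ⟨by linarith, (le_max_right _ _).trans h2⟩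
    filter_upwards [hS.eventually_lt_const (show (0 : ℝ) < ε / 2 by positivity), hv1] with n h1 ⟨h2, h3⟩
    have hσ16 : 16 ≤ σ ^ 2 := by
      have := abs_nonneg t
      nlinarith
    have hμn : 0 < μ n := by linarith
    have hvn : 0 < v n := by linarith
    have hsv : 0 < Real.sqrt (v n) := Real.sqrt_pos.2 hvn
    have hsm : 0 < Real.sqrt (μ n) := Real.sqrt_pos.2 hμn
    have hsms : Real.sqrt (μ n) ≤ 2 * Real.sqrt (v n) := by
      rw [Real.sqrt_le_left (by positivity), mul_pow, Real.sq_sqrt hvn.le]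
      linarith
    have hσm : σ ≤ Real.sqrt (μ n) := Real.le_sqrt_of_sq_le h3
    set θ := t / Real.sqrt (v n) with hθ
    set s := σ / Real.sqrt (μ n) with hs
    have hs0 : 0 < s := by positivity
    have hs1 : s ≤ 1 := by rw [hs, div_le_one hsm]; exact hσm
    have hθs : |θ| / s ≤ 1 / 2 := by
      rw [hθ, hs, abs_div, abs_of_pos hsv, div_div_div_eq, div_le_div_iff₀ (by positivity) two_pos]
      have := abs_nonneg t
      have h4 : |t| * Real.sqrt (μ n) ≤ |t| * (2 * Real.sqrt (v n)) := mul_le_mul_of_nonneg_left hsms this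
      nlinarith
    have hθ1 : |θ| ≤ 1 := by
      rw [div_le_iff₀ hs0] at hθs
      linarith
    -- Taylor expansions
    have T1 := taylor_char (Q := P) (X := fun ω => (N n ω : ℝ) - μ n)
      ((measurable_from_nat (f := fun x : ℕ => (x : ℝ) - μ n)).comp (hN n)) (hip n) θ hKe
    have T2 := taylor_char (Q := poissonMeasure (r n)) (X := fun x : ℕ => (x : ℝ) - r n)
      (measurable_of_countable _) (int_po_pow (r n)) θ hKe
    rw [po_char, hrn n] at T2
    -- the moments of order K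
    have hM : |θ| ^ K / (K.factorial : ℝ) * ∫ x, ((x : ℝ) - r n) ^ K ∂(poissonMeasure (r n)) ≤
        2 * Real.exp (σ ^ 2) * (1 / 2) ^ K := by
      have h4 := po_moment (r n) hs0 K hKe
      have h5 : ∀ y : ℝ, |y| ≤ 1 → Real.exp y - 1 - y ≤ y ^ 2 := fun y hy => by
        have := Real.abs_exp_sub_one_sub_id_le hy
        exact (abs_le.1 this).2
      have h6 : Real.exp (r n * (Real.exp s - 1 - s)) ≤ Real.exp (σ ^ 2) := by
        rw [hrn n]
        apply Real.exp_le_exp.2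
        have h7 := h5 s (by rw [abs_of_pos hs0]; exact hs1)
        calc μ n * (Real.exp s - 1 - s) ≤ μ n * s ^ 2 := mul_le_mul_of_nonneg_left h7 hμn.le
          _ = σ ^ 2 := by rw [hs, div_pow, Real.sq_sqrt hμn.le]; field_simp
      have h6' : Real.exp (r n * (Real.exp (-s) - 1 + s)) ≤ Real.exp (σ ^ 2) := by
        rw [hrn n]
        apply Real.exp_le_exp.2
        have h7 := h5 (-s) (by rw [abs_neg, abs_of_pos hs0]; exact hs1)
        rw [sub_neg_eq_add, neg_sq] at h7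
        calc μ n * (Real.exp (-s) - 1 + s) ≤ μ n * s ^ 2 := mul_le_mul_of_nonneg_left h7 hμn.le
          _ = σ ^ 2 := by rw [hs, div_pow, Real.sq_sqrt hμn.le]; field_simp
      have f0 : (0 : ℝ) < (K.factorial : ℝ) := by exact_mod_cast Nat.factorial_pos _
      calc |θ| ^ K / (K.factorial : ℝ) * ∫ x, ((x : ℝ) - r n) ^ K ∂(poissonMeasure (r n)) ≤
            |θ| ^ K / (K.factorial : ℝ) * ((K.factorial : ℝ) / s ^ K * (Real.exp (σ ^ 2) + Real.exp (σ ^ 2))) := by
            refine mul_le_mul_of_nonneg_left (h4.trans ?_) (by positivity)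
            gcongr
        _ = 2 * Real.exp (σ ^ 2) * (|θ| / s) ^ K := alg1 _ _ _ _ f0.ne' hs0.ne' K
        _ ≤ _ := by gcongr
    set A := fun k : ℕ => ∫ ω, ((N n ω : ℝ) - μ n) ^ k ∂P with hA
    set Bm := fun k : ℕ => ∫ x, ((x : ℝ) - r n) ^ k ∂(poissonMeasure (r n)) with hBm
    have hBm' : ∀ k, ∫ x, ((x : ℝ) - μ n) ^ k ∂(poissonMeasure (r n)) = Bm k := fun k => by
      simp only [hBm, hrn n]
    have hcoef : ∀ k, |θ| ^ k / (k.factorial : ℝ) ≤ 1 := by
      intro k
      have f1 : (1 : ℝ) ≤ (k.factorial : ℝ) := by exact_mod_cast Nat.one_le_iff_ne_zero.2 (Nat.factorial_ne_zero _)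
      rw [div_le_one (by linarith)]
      exact (pow_le_one₀ (abs_nonneg _) hθ1).trans f1
    have hmid : ‖∑ k ∈ range K, (Complex.I * θ) ^ k / (k.factorial : ℂ) * ((A k : ℝ) : ℂ) -
        ∑ k ∈ range K, (Complex.I * θ) ^ k / (k.factorial : ℂ) * ((Bm k : ℝ) : ℂ)‖ ≤
        ∑ k ∈ range K, |A k - Bm k| := by
      rw [← Finset.sum_sub_distrib]
      refine (norm_sum_le _ _).trans (Finset.sum_le_sum fun k _ => ?_)
      rw [← mul_sub, norm_mul, norm_div, norm_pow, norm_mul, Complex.norm_I, one_mul, Complex.norm_real,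
        Complex.norm_natCast, ← Complex.ofReal_sub, Complex.norm_real, Real.norm_eq_abs, Real.norm_eq_abs]
      calc |θ| ^ k / (k.factorial : ℝ) * |A k - Bm k| ≤ 1 * |A k - Bm k| := by
            gcongr
            exact hcoef k
        _ = _ := one_mul _
    have hlast : |θ| ^ K / (K.factorial : ℝ) * A K ≤ 2 * Real.exp (σ ^ 2) * (1 / 2) ^ K + |A K - Bm K| := by
      have h5 : A K ≤ Bm K + |A K - Bm K| := by
        have := le_abs_self (A K - Bm K)
        linarith
      calc |θ| ^ K / (K.factorial : ℝ) * A K ≤ |θ| ^ K / (K.factorial : ℝ) * (Bm K + |A K - Bm K|) := by gcongr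
        _ = |θ| ^ K / (K.factorial : ℝ) * Bm K + |θ| ^ K / (K.factorial : ℝ) * |A K - Bm K| := by ring
        _ ≤ 2 * Real.exp (σ ^ 2) * (1 / 2) ^ K + 1 * |A K - Bm K| := by
            refine add_le_add hM ?_
            gcongr
            exact hcoef K
        _ = _ := by ring
    rw [Finset.sum_range_succ] at h1
    rw [Real.dist_eq, sub_zero, abs_of_nonneg (norm_nonneg _)]
    simp only [hBm'] at T2
    have hM' : |θ| ^ K / (K.factorial : ℝ) * Bm K ≤ 2 * Real.exp (σ ^ 2) * (1 / 2) ^ K := hM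
    set φ := ∫ ω, Complex.exp (Complex.I * ((θ * ((N n ω : ℝ) - μ n) : ℝ) : ℂ)) ∂P with hφ
    set ψ := Complex.exp (μ n * (Complex.exp (Complex.I * (θ : ℂ)) - 1 - Complex.I * (θ : ℂ))) with hψ
    set S1 := ∑ k ∈ range K, (Complex.I * θ) ^ k / (k.factorial : ℂ) * ((A k : ℝ) : ℂ) with hS1
    set S2 := ∑ k ∈ range K, (Complex.I * θ) ^ k / (k.factorial : ℂ) * ((Bm k : ℝ) : ℂ) with hS2
    have e : φ - ψ = (φ - S1) + (S1 - S2) - (ψ - S2) := by ring
    rw [e]
    calc ‖(φ - S1) + (S1 - S2) - (ψ - S2)‖ ≤ ‖φ - S1‖ + ‖S1 - S2‖ + ‖ψ - S2‖ :=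
          (norm_sub_le _ _).trans (add_le_add (norm_add_le _ _) le_rfl)
      _ < ε := by linarith
  have h1 : Tendsto (fun n => (∫ ω, Complex.exp (Complex.I * ((t / Real.sqrt (v n) * ((N n ω : ℝ) - μ n) : ℝ) : ℂ)) ∂P -
      Complex.exp (μ n * (Complex.exp (Complex.I * ((t / Real.sqrt (v n) : ℝ) : ℂ)) - 1 -
      Complex.I * ((t / Real.sqrt (v n) : ℝ) : ℂ))))) atTop (𝓝 0) := tendsto_zero_iff_norm_tendsto_zero.2 hcmp
  have h2 := h1.add hY
  rw [zero_add] at h2
  exact h2.congr fun n => by ring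

end Pool.Agent.Helper18K9.CLT
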