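import Mathlib

set_option autoImplicit false

/-!
From characteristic functions to distribution functions, and a comparison of characteristic functions.
-/

namespace Pool.Agent.Helper18K9.CLT

open Filter Topology MeasureTheory ProbabilityTheory

lemma charFun_map_apply {Ω : Type} [MeasurableSpace Ω] {P : Measure Ω} {X : Ω → ℝ} (hX : Measurable X) (t : ℝ) :
    charFun (P.map X) t = ∫ ω, Complex.exp (Complex.I * ((t * X ω : ℝ) : ℂ)) ∂P := by
  rw [charFun_apply_real, integral_map hX.aemeasurable]
  · refine integral_congr_ae (Eventually.of_forall fun ω => ?_)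
    simp only
    congr 1
    push_cast
    ring
  · refine Measurable.aestronglyMeasurable ?_
    fun_prop

/-- **Lévy's continuity theorem**, in terms of distribution functions, for the normal limit. -/
theorem levy_cdf {Ω : Type} [MeasurableSpace Ω] {P : Measure Ω} [IsProbabilityMeasure P] {X : ℕ → Ω → ℝ}
    (hX : ∀ n, Measurable (X n))
    (h : ∀ t : ℝ, Tendsto (fun n => ∫ ω, Complex.exp (Complex.I * ((t * X n ω : ℝ) : ℂ)) ∂P) atTop
      (𝓝 (Complex.exp (-(t : ℂ) ^ 2 / 2)))) (x : ℝ) :
    Tendsto (fun n => P.real {ω | X n ω ≤ x}) atTop (𝓝 ((gaussianReal 0 1).real (Set.Iic x))) := by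
  have hp : ∀ n, IsProbabilityMeasure (P.map (X n)) := fun n =>
    Measure.isProbabilityMeasure_map (hX n).aemeasurable
  set ν : ℕ → ProbabilityMeasure ℝ := fun n => ⟨P.map (X n), hp n⟩ with hν
  set γ : ProbabilityMeasure ℝ := ⟨gaussianReal 0 1, inferInstance⟩ with hγ
  have h1 : Tendsto ν atTop (𝓝 γ) := by
    refine ProbabilityMeasure.tendsto_iff_tendsto_charFun.2 fun t => ?_
    have e1 : charFun (γ : Measure ℝ) t = Complex.exp (-(t : ℂ) ^ 2 / 2) := by
      have : (γ : Measure ℝ) = gaussianReal 0 1 := rfl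
      rw [this, charFun_gaussianReal]
      congr 1
      push_cast
      ring
    rw [e1]
    refine (h t).congr fun n => ?_
    exact (charFun_map_apply (hX n) t).symm
  have h2 : (γ : Measure ℝ) (frontier (Set.Iic x)) = 0 := by
    rw [frontier_Iic]
    have := nullSingletonClass_gaussianReal (μ := 0) (v := 1) one_ne_zero
    exact measure_singleton (μ := gaussianReal 0 1) x
  have h3 := ProbabilityMeasure.tendsto_measure_of_null_frontier_of_tendsto' h1 h2
  have h4 := (ENNReal.tendsto_toReal (measure_ne_top (γ : Measure ℝ) (Set.Iic x))).comp h3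
  refine h4.congr fun n => ?_
  simp only [Function.comp]
  have e : ((ν n : ProbabilityMeasure ℝ) : Measure ℝ) (Set.Iic x) = P {ω | X n ω ≤ x} := by
    have : ((ν n : ProbabilityMeasure ℝ) : Measure ℝ) = P.map (X n) := rfl
    rw [this, Measure.map_apply (hX n) measurableSet_Iic]
    rfl
  rw [e]
  rfl

/-- comparison of characteristic functions -/
lemma char_close {Ω : Type} [MeasurableSpace Ω] {P : Measure Ω} [IsProbabilityMeasure P] {X Z : ℕ → Ω → ℝ}
    (hX : ∀ n, Measurable (X n)) (hZ : ∀ n, Measurable (Z n)) (hi : ∀ n, Integrable (fun ω => |X n ω - Z n ω|) P)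
    (hXZ : Tendsto (fun n => ∫ ω, |X n ω - Z n ω| ∂P) atTop (𝓝 0)) {L : ℂ} (t : ℝ)
    (h : Tendsto (fun n => ∫ ω, Complex.exp (Complex.I * ((t * Z n ω : ℝ) : ℂ)) ∂P) atTop (𝓝 L)) :
    Tendsto (fun n => ∫ ω, Complex.exp (Complex.I * ((t * X n ω : ℝ) : ℂ)) ∂P) atTop (𝓝 L) := by
  have hint : ∀ Y : Ω → ℝ, Measurable Y → Integrable (fun ω => Complex.exp (Complex.I * ((t * Y ω : ℝ) : ℂ))) P := by
    intro Y hY
    refine Integrable.of_bound (C := 1) ?_ (Eventually.of_forall fun ω => ?_)
    · refine Measurable.aestronglyMeasurable ?_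
      fun_prop
    · rw [mul_comm, Complex.norm_exp_ofReal_mul_I]
  have h1 : Tendsto (fun n => (∫ ω, Complex.exp (Complex.I * ((t * X n ω : ℝ) : ℂ)) ∂P) -
      ∫ ω, Complex.exp (Complex.I * ((t * Z n ω : ℝ) : ℂ)) ∂P) atTop (𝓝 0) := by
    have h2 := hXZ.const_mul |t|
    rw [mul_zero] at h2
    refine squeeze_zero_norm (fun n => ?_) h2
    rw [← integral_sub (hint _ (hX n)) (hint _ (hZ n)), ← integral_const_mul]
    refine (norm_integral_le_integral_norm _).trans ?_
    refine integral_mono_of_nonneg (Eventually.of_forall fun ω => norm_nonneg _) ((hi n).const_mul _)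
      (Eventually.of_forall fun ω => ?_)
    have e : Complex.exp (Complex.I * ((t * X n ω : ℝ) : ℂ)) - Complex.exp (Complex.I * ((t * Z n ω : ℝ) : ℂ)) =
        Complex.exp (Complex.I * ((t * Z n ω : ℝ) : ℂ)) *
          (Complex.exp (Complex.I * ((t * (X n ω - Z n ω) : ℝ) : ℂ)) - 1) := by
      rw [mul_sub, ← Complex.exp_add, mul_one]
      congr 2
      push_cast
      ring
    simp only
    rw [e, norm_mul, mul_comm Complex.I, Complex.norm_exp_ofReal_mul_I, one_mul]
    refine (Real.norm_exp_I_mul_ofReal_sub_one_le).trans ?_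
    rw [Real.norm_eq_abs, abs_mul]
  have h3 := h1.add h
  rw [zero_add] at h3
  exact h3.congr fun n => by ring

end Pool.Agent.Helper18K9.CLT
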