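import Mathlib
import Pool.Agent.Helper18K9.PL.Win
import Pool.Agent.TH888.R.Mean

set_option autoImplicit false

/-!
# Quantitative comparison of window means
-/

namespace Pool.Agent.Helper18K9.CLT

open Filter Topology MeasureTheory
open Pool.Agent.H305R2 (pr pr_nonneg ff VV ZZ VV_tendsto ZZ_nonneg ZZ_le_exp VV_nonneg RR SMz mem_SMz SM_pos
  tail_le)
open Pool.Agent.H447R2.ML (RL RL_nonneg TL TL_le le_TL window_le_TL TL_le_window RL_le_three)
open Pool.Agent.Helper18K9.PL (theta_ev decay)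

/-- quantitative form for short windows -/
theorem RLq (U : ℕ) : ∃ X : ℝ, 1 < X ∧ ∀ x, X ≤ x → ∀ l, 0 < l → l ≤ 1 / 16 →
    |RL l x * Real.log x - l| ≤ 16 * (l ^ 2 + (Real.log x ^ U)⁻¹) := by
  have hth : ∀ᶠ x : ℝ in atTop, |Chebyshev.theta x - x| * Real.log x ^ U / x < 1 :=
    (theta_ev U).eventually_lt_const one_pos
  obtain ⟨X1, hX1⟩ := hth.exists_forall_of_atTop
  refine ⟨max X1 (Real.exp 16 / 1), ?_, ?_⟩
  · refine lt_of_lt_of_le ?_ (le_max_right _ _)
    have : 1 < Real.exp 16 := Real.one_lt_exp_iff.2 (by norm_num)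
    linarith
  intro x hx l hl0 hl16
  have hxX : X1 ≤ x := (le_max_left _ _).trans hx
  have hx16 : Real.exp 16 ≤ x := by
    have := (le_max_right X1 (Real.exp 16 / 1)).trans hx
    simpa using this
  have hx0 : 0 < x := (Real.exp_pos _).trans_le hx16
  have hlx : 16 ≤ Real.log x := by rwa [Real.le_log_iff_exp_le hx0]
  have hlx0 : 0 < Real.log x := by linarith
  set lam := (Real.log x ^ U)⁻¹ with hlam
  have hlam0 : 0 < lam := by positivity
  have hlam1 : lam ≤ 1 := inv_le_one_of_one_le₀ (one_le_pow₀ (by linarith))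
  have he1 : 1 + l ≤ Real.exp l := by have := Real.add_one_le_exp l; linarith
  have he2 : Real.exp l ≤ 1 + l + l ^ 2 := by
    have := Real.abs_exp_sub_one_sub_id_le (x := l) (by rw [abs_le]; constructor <;> linarith)
    have := (abs_le.1 this).2
    linarith
  have hexp2 : Real.exp l ≤ 2 := by nlinarith
  have hex : x ≤ Real.exp l * x := by nlinarith
  have hex0 : 0 < Real.exp l * x := by positivity
  -- theta errors
  have ht : ∀ y, X1 ≤ y → x ≤ y → |Chebyshev.theta y - y| ≤ lam * y := by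
    intro y hy hxy
    have hy0 : 0 < y := hx0.trans_le hxy
    have h1 := (hX1 y hy).le
    rw [div_le_iff₀ hy0, one_mul] at h1
    have h3 : Real.log x ≤ Real.log y := Real.log_le_log hx0 hxy
    have h4 : Real.log x ^ U ≤ Real.log y ^ U := pow_le_pow_left₀ hlx0.le h3 _
    have h5 : |Chebyshev.theta y - y| * Real.log x ^ U ≤ y :=
      (mul_le_mul_of_nonneg_left h4 (abs_nonneg _)).trans h1
    rw [hlam, inv_mul_eq_div, le_div_iff₀ (by positivity)]
    exact h5
  have ht1 := ht x hxX le_rfl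
  have ht2 := ht (Real.exp l * x) (hxX.trans hex) hex
  have hD : |(Chebyshev.theta (Real.exp l * x) - Chebyshev.theta x) - (Real.exp l - 1) * x| ≤ 3 * lam * x := by
    have h5 : lam * (Real.exp l * x) ≤ 2 * lam * x := by
      have : Real.exp l * x ≤ 2 * x := mul_le_mul_of_nonneg_right hexp2 hx0.le
      nlinarith
    rw [abs_le] at *
    constructor <;> nlinarith [ht1.1, ht1.2, ht2.1, ht2.2]
  -- sum with logs
  set S := ∑ k ∈ Finset.Ioc ⌊x⌋₊ ⌊Real.exp l * x⌋₊, Real.log k * pr k with hS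
  have hSth : S = Chebyshev.theta (Real.exp l * x) - Chebyshev.theta x := by
    unfold Chebyshev.theta
    rw [hS, Finset.sum_filter, Finset.sum_filter]
    have hfl : ⌊x⌋₊ ≤ ⌊Real.exp l * x⌋₊ := Nat.floor_mono hex
    have h1 : Finset.Ioc 0 ⌊Real.exp l * x⌋₊ = Finset.Ioc 0 ⌊x⌋₊ ∪ Finset.Ioc ⌊x⌋₊ ⌊Real.exp l * x⌋₊ := by
      ext k; simp only [Finset.mem_union, Finset.mem_Ioc]; omega
    have h2 : Disjoint (Finset.Ioc 0 ⌊x⌋₊) (Finset.Ioc ⌊x⌋₊ ⌊Real.exp l * x⌋₊) := by
      rw [Finset.disjoint_left]; intro k; simp only [Finset.mem_Ioc]; omega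
    rw [h1, Finset.sum_union h2, add_sub_cancel_left]
    refine Finset.sum_congr rfl fun k _ => ?_
    unfold pr
    split_ifs <;> simp
  have hRup : RL l x * Real.log x ≤ S / x := by
    rw [le_div_iff₀ hx0, hS]
    unfold RL
    rw [Finset.sum_mul, Finset.sum_mul]
    refine Finset.sum_le_sum fun k hk => ?_
    rw [Finset.mem_Ioc, Nat.floor_lt hx0.le] at hk
    have hk0 : (0 : ℝ) < k := hx0.trans hk.1
    have h1 : Real.log x ≤ Real.log k := Real.log_le_log hx0 hk.1.le
    have h2 : (k : ℝ)⁻¹ * x ≤ 1 := by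
      rw [inv_mul_le_iff₀ hk0]; linarith [hk.1]
    calc (k : ℝ)⁻¹ * pr k * Real.log x * x = ((k : ℝ)⁻¹ * x) * (Real.log x * pr k) := by ring
      _ ≤ 1 * (Real.log k * pr k) :=
          mul_le_mul h2 (mul_le_mul_of_nonneg_right h1 (pr_nonneg k))
            (mul_nonneg hlx0.le (pr_nonneg k)) zero_le_one
      _ = _ := one_mul _
  have hRlow : S / (Real.exp l * x) ≤ RL l x * (Real.log x + l) := by
    rw [div_le_iff₀ hex0, hS]
    unfold RL
    rw [Finset.sum_mul, Finset.sum_mul]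
    refine Finset.sum_le_sum fun k hk => ?_
    rw [Finset.mem_Ioc, Nat.floor_lt hx0.le, Nat.le_floor_iff hex0.le] at hk
    have hk0 : (0 : ℝ) < k := hx0.trans hk.1
    have h1 : Real.log k ≤ Real.log x + l := by
      have := Real.log_le_log hk0 hk.2
      rw [Real.log_mul (Real.exp_pos _).ne' hx0.ne', Real.log_exp] at this
      linarith
    have h2 : 1 ≤ (k : ℝ)⁻¹ * (Real.exp l * x) := by
      rw [le_inv_mul_iff₀ hk0]; linarith [hk.2]
    have hlk : 0 ≤ Real.log k := by
      have : Real.log x ≤ Real.log k := Real.log_le_log hx0 hk.1.le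
      linarith
    calc Real.log k * pr k = 1 * (Real.log k * pr k) := (one_mul _).symm
      _ ≤ ((k : ℝ)⁻¹ * (Real.exp l * x)) * ((Real.log x + l) * pr k) :=
          mul_le_mul h2 (mul_le_mul_of_nonneg_right h1 (pr_nonneg k))
            (mul_nonneg hlk (pr_nonneg k)) (by positivity)
      _ = _ := by ring
  rw [hSth] at hRup hRlow
  obtain ⟨hD1, hD2⟩ := abs_le.1 hD
  have hR0 := RL_nonneg l x
  have hup : RL l x * Real.log x ≤ (Real.exp l - 1) + 3 * lam := by
    refine hRup.trans ?_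
    rw [div_le_iff₀ hx0]
    nlinarith
  have hup2 : RL l x * Real.log x ≤ l + l ^ 2 + 3 * lam := by linarith
  have hlow : (Real.exp l - 1) - 3 * lam ≤ RL l x * (Real.log x + l) * Real.exp l := by
    have h1 : ((Real.exp l - 1) - 3 * lam) / Real.exp l ≤ RL l x * (Real.log x + l) := by
      refine le_trans ?_ hRlow
      rw [div_le_div_iff₀ (Real.exp_pos _) hex0]
      have h3 : ((Real.exp l - 1) - 3 * lam) * x ≤ Chebyshev.theta (Real.exp l * x) - Chebyshev.theta x := by nlinarith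
      have h4 := mul_le_mul_of_nonneg_right h3 (Real.exp_pos l).le
      nlinarith
    rwa [div_le_iff₀ (Real.exp_pos _)] at h1
  set R := RL l x * Real.log x with hR
  have hR00 : 0 ≤ R := mul_nonneg hR0 hlx0.le
  have hR1 : R ≤ 2 * l + 3 * lam := by nlinarith
  have hRl : RL l x ≤ 2 * l + 3 * lam := by nlinarith
  have hR3 : RL l x * (Real.log x + l) ≤ R + l * (2 * l + 3 * lam) := by
    rw [mul_add, ← hR]
    nlinarith
  have h6 : RL l x * (Real.log x + l) * Real.exp l ≤ (R + l * (2 * l + 3 * lam)) * (1 + l + l ^ 2) :=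
    mul_le_mul hR3 he2 (Real.exp_pos _).le (by positivity)
  have h7 : (R + l * (2 * l + 3 * lam)) * (1 + l + l ^ 2) ≤ R + 12 * l ^ 2 + 12 * lam := by
    have h8 : (R + l * (2 * l + 3 * lam)) * (l + l ^ 2) ≤ ((2 * l + 3 * lam) * 2) * (2 * l) := by
      refine mul_le_mul ?_ (by nlinarith) (by positivity) (by positivity)
      nlinarith
    have h9 : (R + l * (2 * l + 3 * lam)) * (1 + l + l ^ 2) = R + l * (2 * l + 3 * lam) + (R + l * (2 * l + 3 * lam)) * (l + l ^ 2) := by
      ring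
    rw [h9]
    nlinarith
  rw [abs_le]
  constructor
  · nlinarith
  · nlinarith

/-- windows for which the reciprocals of the primes behave regularly -/
def Reg (a C : ℝ) (p : ℕ) (l : ℝ) : Prop :=
  ∀ x, Real.exp (a / 4 * p) ≤ x → |RL l x * Real.log x - l| ≤ C / p * l

/-- **Comparison of two windows.** -/
theorem cmp {a C D : ℝ} (ha : 0 < a) (hC : 0 < C) (hD : 0 < D) (A : ℕ) : ∃ K : ℝ, 0 < K ∧ ∃ P : ℕ, ∀ p : ℕ, P ≤ p →
    ∀ l l' : ℝ, ((p : ℝ) ^ A)⁻¹ ≤ l → l ≤ 1 → ((p : ℝ) ^ A)⁻¹ ≤ l' → l' ≤ 1 → Reg a C p l → Reg a C p l' →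
      ∀ y y' : ℝ, a / 2 * p ≤ y → a / 2 * p ≤ y' → |y' - y| ≤ D →
        TL l p y / l ≤ (1 + K / p) * (TL l' p y' / l') + Real.exp (-(a / 32 * p)) := by
  set K : ℝ := 4 * (C + 8 * D / a + 1) * 4 with hK
  have hK0 : 0 < K := by positivity
  have hcast := tendsto_natCast_atTop_atTop (R := ℝ)
  have e1 : ∀ᶠ p : ℕ in atTop, ZZ p ≤ Real.exp (a / 64 * p) := ZZ_le_exp (by positivity)
  have e2 : ∀ᶠ p : ℕ in atTop, (p : ℝ) ^ A * Real.exp (-(a / 64 * p)) < 1 / 3 :=
    decay A (by positivity) (by norm_num)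
  have e3 : ∀ᶠ p : ℕ in atTop, max (4 * C) (max (16 * D / a) 1) ≤ (p : ℝ) := hcast.eventually_ge_atTop _
  have e4 : ∀ᶠ p : ℕ in atTop, (p : ℝ) ^ 1 * Real.exp (-(a / 4 * p)) < 1 / 2 :=
    decay 1 (by positivity) (by positivity)
  obtain ⟨P, hP⟩ := (e1.and (e2.and (e3.and e4))).exists_forall_of_atTop
  refine ⟨K, hK0, P, fun p hp l l' hl hl1 hl' hl1' hreg hreg' y y' hy hy' hyy => ?_⟩
  obtain ⟨e1, e2, e3, e4⟩ := hP p hp
  have hp1 : 1 ≤ (p : ℝ) := (le_max_right _ _).trans ((le_max_right _ _).trans e3)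
  have hpC : 4 * C ≤ p := (le_max_left _ _).trans e3
  have hpD : 16 * D / a ≤ p := (le_max_left _ _).trans ((le_max_right _ _).trans e3)
  have hp0 : (0 : ℝ) < p := by linarith
  have hl0 : 0 < l := lt_of_lt_of_le (by positivity) hl
  have hl0' : 0 < l' := lt_of_lt_of_le (by positivity) hl'
  have hap : 0 < a * p := by positivity
  have hDp : 16 * D ≤ a * p := by rw [div_le_iff₀ ha] at hpD; linarith
  have hy0 : 0 < y := by nlinarith
  have hy0' : 0 < y' := by nlinarith
  set z := Real.exp (a / 4 * p) with hz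
  have hz0 : 0 < z := Real.exp_pos _
  have hCp : C / p ≤ 1 / 4 := by rw [div_le_div_iff₀ hp0 (by norm_num)]; linarith
  have hCp0 : 0 < C / p := by positivity
  -- the main sum
  set Q : ℝ → ℝ := fun y => ∑ s ∈ SMz p z, (s : ℝ)⁻¹ * (1 / (y - Real.log s)) with hQ
  have hs : ∀ s ∈ SMz p z, (0 : ℝ) < s ∧ Real.log s ≤ a / 4 * p ∧ (s : ℝ) ≤ z := by
    intro s hs
    rw [mem_SMz hz0.le] at hs
    have hs0 : (0 : ℝ) < s := by exact_mod_cast SM_pos hs.1
    refine ⟨hs0, ?_, hs.2⟩
    have := Real.log_le_log hs0 hs.2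
    rwa [hz, Real.log_exp] at this
  have hxs : ∀ w : ℝ, a / 2 * p ≤ w → ∀ s ∈ SMz p z, Real.exp (a / 4 * p) ≤ Real.exp w / s := by
    intro w hw s hsS
    obtain ⟨hs0, _, hs2⟩ := hs s hsS
    rw [le_div_iff₀ hs0]
    calc Real.exp (a / 4 * p) * s ≤ Real.exp (a / 4 * p) * z := by gcongr
      _ = Real.exp (a / 2 * p) := by rw [hz, ← Real.exp_add]; congr 1; ring
      _ ≤ _ := Real.exp_le_exp.2 hw
  have hlogs : ∀ w : ℝ, ∀ s ∈ SMz p z, Real.log (Real.exp w / s) = w - Real.log s := by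
    intro w s hsS
    obtain ⟨hs0, _, _⟩ := hs s hsS
    rw [Real.log_div (Real.exp_pos _).ne' hs0.ne', Real.log_exp]
  -- upper bound
  have hup : TL l p y ≤ (1 + C / p) * l * Q y + 3 * (Real.exp (-(a / 8 * p)) * ZZ p) := by
    refine (TL_le l p y).trans ?_
    rw [← Finset.sum_filter_add_sum_filter_not _ (fun s : ℕ => (s : ℝ) ≤ z)]
    refine add_le_add ?_ ?_
    · have hsub : (SMz p (⌊Real.exp (y + l)⌋₊ : ℝ)).filter (fun s : ℕ => (s : ℝ) ≤ z) ⊆ SMz p z := by
        intro s hs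
        rw [Finset.mem_filter, mem_SMz (by positivity)] at hs
        rw [mem_SMz hz0.le]
        exact ⟨hs.1.1, hs.2⟩
      refine (Finset.sum_le_sum_of_subset_of_nonneg hsub fun s _ _ =>
        mul_nonneg (by positivity) (RL_nonneg _ _)).trans ?_
      simp only [hQ]
      rw [Finset.mul_sum]
      refine Finset.sum_le_sum fun s hsS => ?_
      obtain ⟨hs0, hs1, hs2⟩ := hs s hsS
      have h1 := (abs_le.1 (hreg _ (hxs y hy s hsS))).2
      rw [hlogs y s hsS] at h1
      have h2 : 0 < y - Real.log s := by nlinarith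
      have h3 : RL l (Real.exp y / s) ≤ (1 + C / p) * l * (1 / (y - Real.log s)) := by
        rw [mul_one_div, le_div_iff₀ h2]
        linarith
      calc (s : ℝ)⁻¹ * RL l (Real.exp y / s) ≤ (s : ℝ)⁻¹ * ((1 + C / p) * l * (1 / (y - Real.log s))) := by gcongr
        _ = _ := by ring
    · calc ∑ s ∈ (SMz p (⌊Real.exp (y + l)⌋₊ : ℝ)).filter (fun s : ℕ => ¬ (s : ℝ) ≤ z),
          (s : ℝ)⁻¹ * RL l (Real.exp y / s) ≤
        ∑ s ∈ (SMz p (⌊Real.exp (y + l)⌋₊ : ℝ)).filter (fun s : ℕ => ¬ (s : ℝ) ≤ z), (s : ℝ)⁻¹ * 3 := by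
            refine Finset.sum_le_sum fun s hs => mul_le_mul_of_nonneg_left ?_ (by positivity)
            rw [Finset.mem_filter, mem_SMz (by positivity)] at hs
            have hs0 : (0 : ℝ) < s := by exact_mod_cast SM_pos hs.1.1
            exact RL_le_three hl1 (by positivity)
      _ = 3 * ∑ s ∈ (SMz p (⌊Real.exp (y + l)⌋₊ : ℝ)).filter (fun s : ℕ => ¬ (s : ℝ) ≤ z), (s : ℝ)⁻¹ := by
            rw [Finset.mul_sum]
            exact Finset.sum_congr rfl fun s _ => by ring
      _ ≤ 3 * (z ^ (-(1 / 2) : ℝ) * ZZ p) := by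
            refine mul_le_mul_of_nonneg_left (tail_le p hz0 _ fun s hs => ?_) (by norm_num)
            rw [Finset.mem_filter, mem_SMz (by positivity)] at hs
            exact ⟨hs.1.1, (not_le.1 hs.2).le⟩
      _ = _ := by
            rw [hz, ← Real.exp_mul]
            congr 3
            ring_nf
  -- lower bound
  have hlow : (1 - C / p) * l' * Q y' ≤ TL l' p y' := by
    have hcond : z * (p + 1) ≤ Real.exp y' := by
      have h1 : (p : ℝ) + 1 ≤ Real.exp (a / 4 * p) := by
        have h2 : (p : ℝ) < 1 / 2 * Real.exp (a / 4 * p) := by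
          rw [pow_one, Real.exp_neg, ← div_eq_mul_inv, div_lt_iff₀ (Real.exp_pos _)] at e4
          linarith
        linarith
      calc z * (p + 1) ≤ z * Real.exp (a / 4 * p) := by gcongr
        _ = Real.exp (a / 2 * p) := by rw [hz, ← Real.exp_add]; congr 1; ring
        _ ≤ _ := Real.exp_le_exp.2 hy'
    refine le_trans ?_ (le_TL hl0'.le hz0 hcond)
    simp only [hQ]
    rw [Finset.mul_sum]
    refine Finset.sum_le_sum fun s hsS => ?_
    obtain ⟨hs0, hs1, hs2⟩ := hs s hsS
    have h1 := (abs_le.1 (hreg' _ (hxs y' hy' s hsS))).1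
    rw [hlogs y' s hsS] at h1
    have h2 : 0 < y' - Real.log s := by nlinarith
    have h3 : (1 - C / p) * l' * (1 / (y' - Real.log s)) ≤ RL l' (Real.exp y' / s) := by
      rw [mul_one_div, div_le_iff₀ h2]
      linarith
    calc (1 - C / p) * l' * ((s : ℝ)⁻¹ * (1 / (y' - Real.log s))) = (s : ℝ)⁻¹ * ((1 - C / p) * l' * (1 / (y' - Real.log s))) := by ring
      _ ≤ _ := by gcongr
  -- comparison of the main sums
  have hQ0 : 0 ≤ Q y' := by
    refine Finset.sum_nonneg fun s hsS => ?_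
    obtain ⟨hs0, hs1, hs2⟩ := hs s hsS
    have h2 : 0 < y' - Real.log s := by nlinarith
    positivity
  have hQQ : Q y ≤ (1 + 8 * D / a / p) * Q y' := by
    simp only [hQ]
    rw [Finset.mul_sum]
    refine Finset.sum_le_sum fun s hsS => ?_
    obtain ⟨hs0, hs1, hs2⟩ := hs s hsS
    have h2 : 0 < y' - Real.log s := by nlinarith
    have h3 : a / 4 * p ≤ y - Real.log s := by linarith
    have h3' : 0 < y - Real.log s := by nlinarith
    have h4 : 1 / (y - Real.log s) ≤ (1 + 8 * D / a / p) * (1 / (y' - Real.log s)) := by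
      rw [mul_one_div, div_le_div_iff₀ h3' h2, one_mul]
      have h5 : y' - Real.log s ≤ y - Real.log s + D := by have := (abs_le.1 hyy).2; linarith
      have h6 : D ≤ 8 * D / a / p * (y - Real.log s) := by
        calc D ≤ 8 * D / a / p * (a / 4 * p) := by
              have : 8 * D / a / p * (a / 4 * p) = 2 * D := by field_simp; ring
              linarith
          _ ≤ _ := by gcongr
      linarith
    calc (s : ℝ)⁻¹ * (1 / (y - Real.log s)) ≤ (s : ℝ)⁻¹ * ((1 + 8 * D / a / p) * (1 / (y' - Real.log s))) := by gcongr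
      _ = _ := by ring
  -- conclusion
  have hTQ : Q y' ≤ (1 + 4 * C / p) * (TL l' p y' / l') := by
    have h1 : (1 - C / p) * Q y' ≤ TL l' p y' / l' := by
      rw [le_div_iff₀ hl0']
      linarith
    have h2 : 1 ≤ (1 + 4 * C / p) * (1 - C / p) := by
      have : 4 * C / (p : ℝ) = 4 * (C / p) := by ring
      rw [this]
      nlinarith
    calc Q y' = 1 * Q y' := (one_mul _).symm
      _ ≤ ((1 + 4 * C / p) * (1 - C / p)) * Q y' := by gcongr
      _ = (1 + 4 * C / p) * ((1 - C / p) * Q y') := by ring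
      _ ≤ _ := by gcongr
  have hTT0 : 0 ≤ TL l' p y' / l' := by
    have h1 : (1 - C / p) * Q y' ≤ TL l' p y' / l' := by
      rw [le_div_iff₀ hl0']
      linarith
    have : 0 ≤ (1 - C / (p : ℝ)) * Q y' := mul_nonneg (by linarith) hQ0
    linarith
  have herr : 3 * (Real.exp (-(a / 8 * p)) * ZZ p) / l ≤ Real.exp (-(a / 32 * p)) := by
    have h2 : 1 / l ≤ (p : ℝ) ^ A := by
      rw [div_le_iff₀ hl0]
      rw [inv_le_iff_one_le_mul₀ (by positivity)] at hl
      linarith
    have hZ := ZZ_nonneg p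
    calc 3 * (Real.exp (-(a / 8 * p)) * ZZ p) / l = 3 * (Real.exp (-(a / 8 * p)) * ZZ p) * (1 / l) := by ring
      _ ≤ 3 * (Real.exp (-(a / 8 * p)) * Real.exp (a / 64 * p)) * (p : ℝ) ^ A := by gcongr
      _ = 3 * ((p : ℝ) ^ A * Real.exp (-(a / 64 * p))) * (Real.exp (-(a / 8 * p)) * Real.exp (a / 32 * p)) := by
          have : Real.exp (a / 64 * p) = Real.exp (-(a / 64 * p)) * Real.exp (a / 32 * p) := by
            rw [← Real.exp_add]; congr 1; ring
          rw [this]
          ring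
      _ ≤ 3 * (1 / 3) * (Real.exp (-(a / 8 * p)) * Real.exp (a / 32 * p)) := by gcongr
      _ = Real.exp (-(a / 8 * p)) * Real.exp (a / 32 * p) := by ring
      _ ≤ Real.exp (-(a / 32 * p)) := by
          rw [← Real.exp_add]
          apply Real.exp_le_exp.2
          nlinarith
  have h8D : 8 * D / a / p ≤ 1 / 2 := by
    rw [div_div, div_le_div_iff₀ (by positivity) two_pos]
    linarith
  have h8D0 : 0 < 8 * D / a / p := by positivity
  calc TL l p y / l ≤ ((1 + C / p) * l * Q y + 3 * (Real.exp (-(a / 8 * p)) * ZZ p)) / l := by gcongr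
    _ = (1 + C / p) * Q y + 3 * (Real.exp (-(a / 8 * p)) * ZZ p) / l := by field_simp
    _ ≤ (1 + C / p) * ((1 + 8 * D / a / p) * ((1 + 4 * C / p) * (TL l' p y' / l'))) + Real.exp (-(a / 32 * p)) := by
        refine add_le_add ?_ herr
        refine mul_le_mul_of_nonneg_left ?_ (by positivity)
        refine hQQ.trans ?_
        gcongr
    _ = ((1 + C / p) * (1 + 8 * D / a / p) * (1 + 4 * C / p)) * (TL l' p y' / l') + Real.exp (-(a / 32 * p)) := by ring
    _ ≤ (1 + K / p) * (TL l' p y' / l') + Real.exp (-(a / 32 * p)) := by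
        refine add_le_add (mul_le_mul_of_nonneg_right ?_ hTT0) le_rfl
        have hK' : K / p = 16 * (C / p) + 16 * (8 * D / a / p) + 16 * (1 / p) := by
          rw [hK]; field_simp; ring
        have h4C : 4 * C / (p : ℝ) = 4 * (C / p) := by ring
        rw [hK', h4C]
        set u := C / (p : ℝ) with hu
        set w := 8 * D / a / p with hw
        have h1p : 0 < 1 / (p : ℝ) := by positivity
        have e5 : (1 + u) * (1 + w) * (1 + 4 * u) = 1 + 5 * u + w + 4 * u ^ 2 + 5 * u * w + 4 * u ^ 2 * w := by ring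
        rw [e5]
        have h9 : u ^ 2 ≤ u / 4 := by nlinarith
        have h10 : u * w ≤ w / 4 := by nlinarith
        have h11 : u ^ 2 * w ≤ w / 4 := by
          have : u ^ 2 ≤ 1 / 4 := by nlinarith
          nlinarith
        linarith

end Pool.Agent.Helper18K9.CLT
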