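import Mathlib
import Pool.Agent.Helper18K9.CLT.RLq

set_option autoImplicit false

/-!
# Window means with a power saving relative error
-/

namespace Pool.Agent.Helper18K9.CLT

open Filter Topology MeasureTheory
open Pool.Agent.H305R2 (ff ff_nonneg RR)
open Pool.Agent.H447R2.ML (RL RL_nonneg TL TL_le le_TL window_le_TL TL_le_window RL_le_three)
open Pool.Agent.Helper18K9.PL (theta_ev decay win)

lemma reg_one {a : ℝ} (ha : 0 < a) : ∃ C : ℝ, 0 < C ∧ ∃ P : ℕ, ∀ p : ℕ, P ≤ p → Reg a C p 1 := by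
  obtain ⟨C, hC, h⟩ := Pool.Agent.TH888.R.RR_rate
  have hcast := tendsto_natCast_atTop_atTop (R := ℝ)
  obtain ⟨P, hP⟩ := (hcast.eventually_ge_atTop (max 1 (8 / a))).exists_forall_of_atTop
  refine ⟨4 * C / a, by positivity, P, fun p hp x hx => ?_⟩
  have h1 := hP p hp
  have hp1 : 1 ≤ (p : ℝ) := (le_max_left _ _).trans h1
  have hp2 : 8 / a ≤ (p : ℝ) := (le_max_right _ _).trans h1
  rw [div_le_iff₀ ha] at hp2
  have h2 : 2 ≤ a / 4 * p := by linarith
  have hx3 : 3 ≤ x := by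
    have h3 : (3 : ℝ) ≤ Real.exp (a / 4 * p) := by
      have := Real.add_one_le_exp (a / 4 * p)
      linarith
    linarith
  have hx0 : 0 < x := by linarith
  have hlx : a / 4 * p ≤ Real.log x := by rwa [Real.le_log_iff_exp_le hx0]
  have h4 := h x hx3
  have e : RL 1 x = RR x := rfl
  rw [e]
  refine h4.trans ?_
  rw [mul_one, div_div, div_le_div_iff₀ (by linarith) (by positivity)]
  nlinarith

lemma reg_short {a : ℝ} (ha : 0 < a) (A : ℕ) : ∃ C : ℝ, 0 < C ∧ ∃ P : ℕ, ∀ p : ℕ, P ≤ p →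
    ∀ l : ℝ, ((p : ℝ) ^ A)⁻¹ ≤ l → l ≤ (p : ℝ)⁻¹ → Reg a C p l := by
  obtain ⟨X, hX1, hX⟩ := RLq (A + 1)
  have hcast := tendsto_natCast_atTop_atTop (R := ℝ)
  have hXp : ∀ᶠ p : ℕ in atTop, X ≤ Real.exp (a / 4 * p) :=
    (Real.tendsto_exp_atTop.comp (hcast.const_mul_atTop (by positivity : 0 < a / 4))).eventually_ge_atTop X
  obtain ⟨P, hP⟩ := ((hcast.eventually_ge_atTop (16 : ℝ)).and hXp).exists_forall_of_atTop
  refine ⟨16 * (1 + (4 / a) ^ (A + 1)), by positivity, P, fun p hp l hl hl' x hx => ?_⟩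
  obtain ⟨h16, h2⟩ := hP p hp
  have hp0 : (0 : ℝ) < p := by linarith
  have hl0 : 0 < l := lt_of_lt_of_le (by positivity) hl
  have hl16 : l ≤ 1 / 16 := by
    refine hl'.trans ?_
    rw [inv_eq_one_div]
    exact one_div_le_one_div_of_le (by norm_num) h16
  have hx0 : 0 < x := (Real.exp_pos _).trans_le hx
  have hlx : a / 4 * p ≤ Real.log x := by rwa [Real.le_log_iff_exp_le hx0]
  have h3 := hX x (h2.trans hx) l hl0 hl16
  refine h3.trans ?_
  have h4 : l ^ 2 ≤ (p : ℝ)⁻¹ * l := by rw [pow_two]; exact mul_le_mul_of_nonneg_right hl' hl0.le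
  have h5 : (Real.log x ^ (A + 1))⁻¹ ≤ (4 / a) ^ (A + 1) * ((p : ℝ)⁻¹ * l) := by
    have h6 : (a / 4 * p) ^ (A + 1) ≤ Real.log x ^ (A + 1) := pow_le_pow_left₀ (by positivity) hlx _
    calc (Real.log x ^ (A + 1))⁻¹ ≤ ((a / 4 * p) ^ (A + 1))⁻¹ := inv_anti₀ (by positivity) h6
      _ = (4 / a) ^ (A + 1) * ((p : ℝ)⁻¹ * ((p : ℝ) ^ A)⁻¹) := by
          rw [mul_pow, div_pow, div_pow, pow_succ (p : ℝ) A]
          field_simp
      _ ≤ _ := by gcongr
  have e : 16 * (1 + (4 / a) ^ (A + 1)) / (p : ℝ) * l = 16 * ((p : ℝ)⁻¹ * l + (4 / a) ^ (A + 1) * ((p : ℝ)⁻¹ * l)) := by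
    field_simp
  rw [e]
  linarith

/-- the mean of `ff p` over the window `(y, y + l]` -/
noncomputable def Sm (p : ℕ) (l y : ℝ) : ℝ := (∫ t in Set.Ioc y (y + l), ff p t) / l

/-- **Window means with a power saving.** -/
theorem mean2 {a D : ℝ} (ha : 0 < a) (hD : 0 < D) (A : ℕ) (hA : 1 ≤ A) : ∃ K : ℝ, 0 < K ∧ ∃ κ : ℝ, 0 < κ ∧ ∃ P : ℕ,
    ∀ p : ℕ, P ≤ p → ∀ l : ℝ, ((p : ℝ) ^ A)⁻¹ ≤ l → l ≤ (p : ℝ)⁻¹ → ∀ y y' : ℝ, |y - a * p| ≤ κ * p →
      |y' - y| ≤ D → |Sm p l y - Sm p 1 y'| ≤ K / p * Sm p 1 y' ∧ 0 < Sm p 1 y' := by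
  obtain ⟨C1, hC1, P1, h1⟩ := reg_one ha
  obtain ⟨C2, hC2, P2, h2⟩ := reg_short ha A
  set C := max C1 C2 with hC
  have hC0 : 0 < C := lt_max_of_lt_left hC1
  obtain ⟨K, hK, P3, h3⟩ := cmp (C := C) ha hC0 hD A
  set G := Real.exp Real.eulerMascheroniConstant with hG
  have hG0 : 0 < G := Real.exp_pos _
  obtain ⟨η, hη, κ, hκ, P4, h4⟩ := win ha A (ε := G / a / 2) (by positivity)
  have hcast := tendsto_natCast_atTop_atTop (R := ℝ)
  have e1 : ∀ᶠ p : ℕ in atTop, (p : ℝ) ^ (A + 2) * Real.exp (-(a / 32 * p)) < G / a / 32 :=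
    decay (A + 2) (by positivity) (by positivity)
  have e2 : ∀ᶠ p : ℕ in atTop, max (max 16 (4 * K)) (max (4 * D / a) η⁻¹) ≤ (p : ℝ) := hcast.eventually_ge_atTop _
  obtain ⟨P5, h5⟩ := (e1.and e2).exists_forall_of_atTop
  refine ⟨8 * (K + 1), by positivity, min κ (a / 4), lt_min hκ (by positivity),
    max (max P1 P2) (max (max P3 P4) P5), fun p hp l hl hl' y y' hy hyy => ?_⟩
  have hp1 : P1 ≤ p := ((le_max_left _ _).trans (le_max_left _ _)).trans hp
  have hp2 : P2 ≤ p := ((le_max_right _ _).trans (le_max_left _ _)).trans hp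
  have hp3 : P3 ≤ p := (((le_max_left _ _).trans (le_max_left _ _)).trans (le_max_right _ _)).trans hp
  have hp4 : P4 ≤ p := (((le_max_right _ _).trans (le_max_left _ _)).trans (le_max_right _ _)).trans hp
  have hp5 : P5 ≤ p := ((le_max_right _ _).trans (le_max_right _ _)).trans hp
  obtain ⟨e1, e2⟩ := h5 p hp5
  have hp16 : (16 : ℝ) ≤ p := ((le_max_left _ _).trans (le_max_left _ _)).trans e2
  have hpK : 4 * K ≤ p := ((le_max_right _ _).trans (le_max_left _ _)).trans e2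
  have hpD : 4 * D / a ≤ p := ((le_max_left _ _).trans (le_max_right _ _)).trans e2
  have hpη : η⁻¹ ≤ p := ((le_max_right _ _).trans (le_max_right _ _)).trans e2
  have hp0 : (0 : ℝ) < p := by linarith
  have hap : 0 < a * p := by positivity
  rw [div_le_iff₀ ha] at hpD
  have hl0 : 0 < l := lt_of_lt_of_le (by positivity) hl
  have hpinv : (p : ℝ)⁻¹ ≤ 1 / 16 := by
    rw [inv_eq_one_div]
    exact one_div_le_one_div_of_le (by norm_num) hp16
  have hlη : l ≤ η := by
    refine hl'.trans ?_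
    calc (p : ℝ)⁻¹ ≤ (η⁻¹)⁻¹ := inv_anti₀ (by positivity) hpη
      _ = η := inv_inv η
  have hl1 : l ≤ 1 := by linarith
  have hA1 : ((p : ℝ) ^ A)⁻¹ ≤ 1 := inv_le_one_of_one_le₀ (one_le_pow₀ (by linarith))
  have hκ1 : |y - a * p| ≤ κ * p := hy.trans (mul_le_mul_of_nonneg_right (min_le_left _ _) hp0.le)
  have hκ2 : |y - a * p| ≤ a / 4 * p := hy.trans (mul_le_mul_of_nonneg_right (min_le_right _ _) hp0.le)
  have hyl : a / 2 * p ≤ y := by have := (abs_le.1 hκ2).1; nlinarith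
  have hyl' : a / 2 * p ≤ y' := by
    have a1 := (abs_le.1 hκ2).1
    have a2 := (abs_le.1 hyy).1
    nlinarith
  have hy0 : 0 < y := by nlinarith
  have hy0' : 0 < y' := by nlinarith
  have hregmono : ∀ {C' l'}, C' ≤ C → 0 < l' → Reg a C' p l' → Reg a C p l' := by
    intro C' l' hCC hl' h x hx
    refine (h x hx).trans ?_
    gcongr
  have r1 : Reg a C p 1 := hregmono (le_max_left _ _) one_pos (h1 p hp1)
  have r2 : Reg a C p l := hregmono (le_max_right _ _) hl0 (h2 p hp2 l hl hl')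
  have c1 := h3 p hp3 l 1 hl hl1 hA1 le_rfl r2 r1 y y' hyl hyl' hyy
  have c2 := h3 p hp3 1 l hA1 le_rfl hl hl1 r1 r2 y' y hyl' hyl (by rwa [abs_sub_comm])
  rw [div_one] at c1 c2
  -- windows and TL
  have w1 := window_le_TL (p := p) (l := l) hl0.le hy0.le
  have w2 := TL_le_window (p := p) (l := l) hl0.le hy0.le
  have w3 := window_le_TL (p := p) (l := 1) zero_le_one hy0'.le
  have w4 := TL_le_window (p := p) (l := 1) zero_le_one hy0'.le
  set T := TL l p y / l with hT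
  set T' := TL 1 p y' with hT'
  set S := Sm p l y with hS
  set S' := Sm p 1 y' with hS'
  have hS'e : S' = ∫ t in Set.Ioc y' (y' + 1), ff p t := by rw [hS']; unfold Sm; rw [div_one]
  have hSe : S * l = ∫ t in Set.Ioc y (y + l), ff p t := by rw [hS]; unfold Sm; field_simp
  rw [← hSe] at w1 w2
  rw [← hS'e] at w3 w4
  -- the small error
  set e := Real.exp (-(a / 32 * p)) with he
  have he0 : 0 < e := Real.exp_pos _
  have hlp : 1 ≤ (p : ℝ) ^ A * l := by
    rw [inv_le_iff_one_le_mul₀ (by positivity)] at hl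
    linarith
  have hey : ∀ w, a / 2 * p ≤ w → Real.exp (-w) ≤ e := by
    intro w hw
    apply Real.exp_le_exp.2
    nlinarith
  set E := 4 * ((p : ℝ) ^ A * e) with hE
  have hpA1 : 1 ≤ (p : ℝ) ^ A := one_le_pow₀ (by linarith)
  have hE0 : 0 < E := by positivity
  have heE : e ≤ E := by
    rw [hE]
    nlinarith
  have d1 : S ≤ T + E := by
    have : S * l ≤ (T + E) * l := by
      have h6 : (T + E) * l = TL l p y + E * l := by rw [hT]; field_simp
      rw [h6]
      have h7 := hey y hyl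
      have h8 : e ≤ (p : ℝ) ^ A * l * e := by nlinarith
      have h9 : E * l = 4 * ((p : ℝ) ^ A * l * e) := by rw [hE]; ring
      rw [h9]
      linarith
    exact le_of_mul_le_mul_right this hl0
  have d2 : T - E ≤ S := by
    have : (T - E) * l ≤ S * l := by
      have h6 : (T - E) * l = TL l p y - E * l := by rw [hT]; field_simp
      rw [h6]
      have h7 := hey y hyl
      have h8 : e ≤ (p : ℝ) ^ A * l * e := by nlinarith
      have h9 : E * l = 4 * ((p : ℝ) ^ A * l * e) := by rw [hE]; ring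
      rw [h9]
      linarith
    exact le_of_mul_le_mul_right this hl0
  have d3 : S' ≤ T' + E := by
    have h7 := hey y' hyl'
    have : 2 * e ≤ E := by rw [hE]; nlinarith
    linarith
  have d4 : T' - E ≤ S' := by
    have h7 := hey y' hyl'
    have : 4 * e ≤ E := by rw [hE]; nlinarith
    linarith
  -- lower bound of S
  have hlog : 1 ≤ Real.log p := by
    rw [Real.le_log_iff_exp_le hp0]
    have := Real.exp_one_lt_d9
    linarith
  have hS1 : G / a / 2 * (1 / p) ≤ S := by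
    have h6 := (abs_le.1 (h4 p hp4 l hl hlη y hκ1)).1
    rw [← hSe] at h6
    have h7 : G / a / 2 * l ≤ S * l * (p / Real.log p) := by linarith
    have h8 : (p : ℝ) / Real.log p ≤ p := div_le_self hp0.le hlog
    have hS0 : 0 ≤ S := by
      rw [hS]; unfold Sm
      exact div_nonneg (integral_nonneg fun t => ff_nonneg _ _) hl0.le
    have h9 : S * l * (p / Real.log p) ≤ S * l * p := by gcongr
    have h10 : G / a / 2 ≤ S * p := by
      have : G / a / 2 * l ≤ (S * p) * l := by linarith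
      exact le_of_mul_le_mul_right this hl0
    rw [mul_one_div, div_le_iff₀ hp0]
    exact h10
  have hES : E ≤ 1 / (4 * p) * S := by
    have h6 : (p : ℝ) ^ (A + 2) * e < G / a / 32 := e1
    have h7 : E * (p * p) ≤ G / a / 8 := by
      have : E * (p * p) = 4 * ((p : ℝ) ^ (A + 2) * e) := by rw [hE, pow_add]; ring
      rw [this]
      linarith
    have h8 : 1 / (4 * p) * (G / a / 2 * (1 / p)) ≤ 1 / (4 * p) * S := by gcongr
    refine le_trans ?_ h8
    have h9 : 1 / (4 * p) * (G / a / 2 * (1 / p)) = (G / a / 8) / (p * p) := by field_simp; ring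
    rw [h9, le_div_iff₀ (by positivity)]
    exact h7
  have hS0 : 0 < S := lt_of_lt_of_le (by positivity) hS1
  -- combine
  set u := K / (p : ℝ) with hu
  have hu0 : 0 < u := by positivity
  have hu4 : u ≤ 1 / 4 := by rw [hu, div_le_div_iff₀ hp0 (by norm_num)]; linarith
  set w := 1 / (4 * (p : ℝ)) with hw
  have hw0 : 0 < w := by positivity
  have hw16 : w ≤ 1 / 64 := by
    rw [hw]
    exact one_div_le_one_div_of_le (by norm_num) (by linarith)
  -- S ≤ (1+u)(S' + E) + e + E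
  have f1 : S ≤ (1 + u) * (S' + E) + 2 * E := by
    have : T ≤ (1 + u) * T' + e := c1
    have : (1 + u) * T' ≤ (1 + u) * (S' + E) := mul_le_mul_of_nonneg_left (by linarith) (by linarith)
    linarith
  have f2 : S' ≤ (1 + u) * (S + E) + 2 * E := by
    have : T' ≤ (1 + u) * T + e := c2
    have : (1 + u) * T ≤ (1 + u) * (S + E) := mul_le_mul_of_nonneg_left (by linarith) (by linarith)
    linarith
  have hE4 : (1 + u) * E + 2 * E ≤ 4 * w * S := by nlinarith
  have f3 : S * (1 - 4 * w) ≤ (1 + u) * S' := by nlinarith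
  have f4 : S' ≤ (1 + u + 4 * w) * S := by nlinarith
  have hSS : S ≤ 2 * S' := by nlinarith
  have hS'0 : 0 < S' := by linarith
  have hKp : 8 * (K + 1) / (p : ℝ) = 8 * u + 32 * w := by rw [hu, hw]; field_simp; ring
  rw [hKp]
  refine ⟨?_, hS'0⟩
  rw [abs_le]
  constructor
  · nlinarith
  · nlinarith

end Pool.Agent.Helper18K9.CLT
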