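import Mathlib
import Pool.Agent.Helper18K9.PL.Mom
import Pool.Agent.Helper18K9.CLT.Mean2

set_option autoImplicit false

/-!
Correlations of all orders with a power saving.
-/

namespace Pool.Agent.Helper18K9.CLT

open Finset Filter Topology MeasureTheory ProbabilityTheory
open Pool.Agent.H305R2 (ff ff_nonneg ff_le_one measurable_ff integrableOn_ff NN roughPart)
open Pool.Agent.Helper18K9.PL

lemma one_add_pow_le (n : ℕ) {x : ℝ} (h0 : 0 ≤ x) (h1 : x ≤ 1) : (1 + x) ^ n ≤ 1 + (2 ^ n - 1) * x := by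
  induction n with
  | zero => simp
  | succ n ih =>
    have h2 : (1 : ℝ) ≤ 2 ^ n := one_le_pow₀ (by norm_num)
    calc (1 + x) ^ (n + 1) = (1 + x) ^ n * (1 + x) := pow_succ _ _
      _ ≤ (1 + (2 ^ n - 1) * x) * (1 + x) := mul_le_mul_of_nonneg_right ih (by linarith)
      _ = 1 + x + (2 ^ n - 1) * x + (2 ^ n - 1) * (x * x) := by ring
      _ ≤ 1 + x + (2 ^ n - 1) * x + (2 ^ n - 1) * x := by
          have : (2 ^ n - 1) * (x * x) ≤ (2 ^ n - 1) * x := by
            refine mul_le_mul_of_nonneg_left (by nlinarith) (by linarith)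
          linarith
      _ = _ := by ring

/-- reference densities: the mean of `ff q` over the window `(g q, g q + 1]` -/
noncomputable def tau (g : ℕ → ℝ) (q : ℕ) : ℝ := Sm q 1 (g q)

lemma tau_nonneg (g : ℕ → ℝ) (q : ℕ) : 0 ≤ tau g q := by
  unfold tau Sm
  exact div_nonneg (integral_nonneg fun t => ff_nonneg _ _) zero_le_one

lemma int_shift2 (q : ℕ) {l : ℝ} (hl : 0 < l) (s b : ℝ) :
    ∫ t in Set.Ioc 0 l, ff q (s + t + b) = Sm q l (s + b) * l := by
  rw [int_shift q hl.le, Sm]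
  field_simp

/-- **Correlations with `k` parameters, power saving.** -/
theorem core2 {a : ℝ} (ha : 0 < a) (m k : ℕ) {r : Fin k → ℝ} (hr : ∀ j, 0 < r j) {D : ℝ} (hD : 0 < D) :
    ∃ κ : ℝ, 0 < κ ∧ ∃ C : ℝ, 0 < C ∧ ∃ Z : ℕ, ∀ N : ℕ, Z ≤ N → ∀ S : Finset ℕ, S.card = k → (∀ q ∈ S, N ≤ q) →
      ∀ g b : ℕ → ℝ, (∀ q ∈ S, |b q - a * q| ≤ κ * q) → (∀ q ∈ S, |g q - b q| ≤ D) →
        |∫ x, (∏ i : S, ff i (Lin m i x + b i)) ∂(Un r) - ∏ q ∈ S, tau g q| ≤ C / N * ∏ q ∈ S, tau g q := by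
  set A := m + 2 * k + 1 with hA
  set D1 := D + ∑ j, 2 * r j with hD1
  have hD10 : 0 < D1 := by
    have : 0 ≤ ∑ j, 2 * r j := Finset.sum_nonneg fun j _ => by linarith [hr j]
    linarith
  obtain ⟨K, hK, κ, hκ, P, hwin⟩ := mean2 (D := D1) ha hD10 A (by omega)
  -- lower bound of the `r j`
  obtain ⟨ρ, hρ0, hρ⟩ : ∃ ρ : ℝ, 0 < ρ ∧ ∀ j, ρ ≤ r j := by
    rcases Nat.eq_zero_or_pos k with hk | hk
    · subst hk
      exact ⟨1, one_pos, fun j => j.elim0⟩
    · have : Nonempty (Fin k) := ⟨⟨0, hk⟩⟩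
      obtain ⟨j0, hj0⟩ := Finite.exists_min r
      exact ⟨r j0, hr j0, hj0⟩
  set u := K + (k : ℝ) * 4 ^ k / ρ with hu
  have hu0 : 0 < u := by positivity
  have hcast := tendsto_natCast_atTop_atTop (R := ℝ)
  obtain ⟨Z1, hZ1⟩ := (hcast.eventually_ge_atTop (max u 3)).exists_forall_of_atTop
  obtain ⟨Z3, hZ3⟩ := (hcast.eventually_ge_atTop ((2 / κ) * ∑ j, 2 * r j)).exists_forall_of_atTop
  refine ⟨κ / 2, by positivity, 2 ^ (2 * k) * u * 2 ^ (2 * k), by positivity, max (max P Z1) Z3,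
    fun N hN S hS hSN g b hb hgb => ?_⟩
  have hNP : P ≤ N := ((le_max_left _ _).trans (le_max_left _ _)).trans hN
  have hN1 : Z1 ≤ N := ((le_max_right _ _).trans (le_max_left _ _)).trans hN
  have hN3 : Z3 ≤ N := (le_max_right _ _).trans hN
  have hNu : u ≤ (N : ℝ) := (le_max_left _ _).trans (hZ1 N hN1)
  have hN3' : (3 : ℝ) ≤ N := (le_max_right _ _).trans (hZ1 N hN1)
  have hN0 : (0 : ℝ) < N := by linarith
  have hqN : ∀ q ∈ S, (N : ℝ) ≤ q := fun q hq => by exact_mod_cast hSN q hq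
  have hq3 : ∀ q ∈ S, (3 : ℝ) ≤ q := fun q hq => hN3'.trans (hqN q hq)
  have hq1 : ∀ q ∈ S, 1 ≤ q := fun q hq => by
    have := hq3 q hq
    have h : (1 : ℝ) ≤ q := by linarith
    exact_mod_cast h
  set L : ℕ → ℝ := fun q => ((max (q : ℝ) 1) ^ A)⁻¹ with hL
  have hL0 : ∀ q, 0 < L q := fun q => by
    simp only [hL]
    have : (0 : ℝ) < max (q : ℝ) 1 := lt_max_of_lt_right one_pos
    positivity
  have hLq : ∀ q ∈ S, L q = ((q : ℝ) ^ A)⁻¹ := fun q hq => by
    simp only [hL]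
    rw [max_eq_left]
    exact_mod_cast hq1 q hq
  set ξ := (k : ℝ) * 4 ^ k / N with hξ
  have hξ0 : 0 ≤ ξ := by positivity
  have hξρ : ξ / ρ ≤ u / N := by
    rw [hξ, div_div, mul_comm (N : ℝ), ← div_div]
    refine div_le_div_of_nonneg_right ?_ hN0.le
    rw [hu]
    linarith
  have huN1 : u / N ≤ 1 := by rw [div_le_one hN0]; exact hNu
  have hξr : ∀ j, ξ / r j ≤ u / N := fun j => by
    refine le_trans ?_ hξρ
    exact div_le_div_of_nonneg_left hξ0 hρ0 (hρ j)
  have hLξ : ∀ q ∈ S, (k : ℝ) * (L q * (q : ℝ) ^ m * (4 * (q : ℝ) ^ 2) ^ k) ≤ ξ := by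
    intro q hq
    have h3 := hq3 q hq
    have h0 : (0 : ℝ) < q := by linarith
    rw [hLq q hq, hA]
    have e : (k : ℝ) * (((q : ℝ) ^ (m + 2 * k + 1))⁻¹ * (q : ℝ) ^ m * (4 * (q : ℝ) ^ 2) ^ k) = k * 4 ^ k / q := by
      rw [mul_pow, ← pow_mul, pow_succ, pow_add]
      field_simp
    rw [e, hξ]
    exact div_le_div_of_nonneg_left (by positivity) hN0 (hqN q hq)
  set h : ℕ → ℝ → ℝ := fun q t => ff q (t + b q) with hh
  have hm : ∀ q, Measurable (h q) := fun q => (measurable_ff q).comp (measurable_add_const _)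
  have h0 : ∀ q t, 0 ≤ h q t := fun q t => ff_nonneg _ _
  have h1 : ∀ q t, h q t ≤ 1 := fun q t => ff_le_one _ _
  -- the windows
  have hW : ∀ q ∈ S, ∀ x : Fin k → ℝ, (∀ j, |x j| ≤ 2 * r j) →
      (1 - u / N) * tau g q * L q ≤ ∫ t in Set.Ioc 0 (L q), h q (Lin m q x + t) ∧
      ∫ t in Set.Ioc 0 (L q), h q (Lin m q x + t) ≤ (1 + u / N) * tau g q * L q := by
    intro q hq x hx
    have h3 := hq3 q hq
    have hq0 : (0 : ℝ) < q := by linarith
    have e1 : ∫ t in Set.Ioc 0 (L q), h q (Lin m q x + t) = Sm q (L q) (Lin m q x + b q) * L q := by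
      simp only [hh]
      exact int_shift2 q (hL0 q) _ _
    have h7 : |Lin m q x| ≤ ∑ j, 2 * r j :=
      (abs_Lin_le m (hq1 q hq) x).trans (Finset.sum_le_sum fun j _ => hx j)
    have h4 : |Lin m q x + b q - a * q| ≤ κ * q := by
      have h5 : |Lin m q x| ≤ κ / 2 * q := by
        refine h7.trans ?_
        have h6 : (2 / κ) * ∑ j, 2 * r j ≤ q := (hZ3 N hN3).trans (hqN q hq)
        have h8 : (κ / 2) * ((2 / κ) * ∑ j, 2 * r j) ≤ κ / 2 * q := by gcongr
        have h9 : (κ / 2) * ((2 / κ) * ∑ j, 2 * r j) = ∑ j, 2 * r j := by field_simp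
        linarith
      have h6 := hb q hq
      calc |Lin m q x + b q - a * q| = |Lin m q x + (b q - a * q)| := by congr 1; ring
        _ ≤ |Lin m q x| + |b q - a * q| := abs_add_le _ _
        _ ≤ _ := by linarith
    have h5 : |g q - (Lin m q x + b q)| ≤ D1 := by
      calc |g q - (Lin m q x + b q)| = |(g q - b q) - Lin m q x| := by congr 1; ring
        _ ≤ |g q - b q| + |Lin m q x| := abs_sub _ _
        _ ≤ D1 := by have := hgb q hq; linarith
    have hLl : L q ≤ (q : ℝ)⁻¹ := by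
      rw [hLq q hq]
      refine inv_anti₀ hq0 ?_
      calc (q : ℝ) = (q : ℝ) ^ 1 := (pow_one _).symm
        _ ≤ _ := pow_le_pow_right₀ (by linarith) (by omega)
    obtain ⟨h6, h8⟩ := hwin q (hNP.trans (hSN q hq)) (L q) (le_of_eq (hLq q hq).symm) hLl _ (g q) h4 h5
    rw [e1]
    have htau : Sm q 1 (g q) = tau g q := rfl
    rw [htau] at h6 h8
    have h9 : K / q * tau g q ≤ u / N * tau g q := by
      refine mul_le_mul_of_nonneg_right ?_ h8.le
      have h10 : K / (q : ℝ) ≤ K / N := div_le_div_of_nonneg_left hK.le hN0 (hqN q hq)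
      refine h10.trans (div_le_div_of_nonneg_right ?_ hN0.le)
      rw [hu]
      have : 0 ≤ (k : ℝ) * 4 ^ k / ρ := by positivity
      linarith
    obtain ⟨h11, h12⟩ := abs_le.1 (h6.trans h9)
    constructor
    · refine mul_le_mul_of_nonneg_right ?_ (hL0 q).le
      linarith
    · refine mul_le_mul_of_nonneg_right ?_ (hL0 q).le
      linarith
  have htau : ∀ q, 0 ≤ tau g q := tau_nonneg g
  have huN0 : 0 ≤ u / (N : ℝ) := by positivity
  obtain ⟨hlow, hup⟩ := box_bounds (m := m) hm h0 h1 hS hq1 hL0 hξ0 hLξ hr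
    (fun j => by
      have := hξr j
      rw [div_le_iff₀ (hr j)] at this
      have h2 := hr j
      nlinarith) (lo := fun q => (1 - u / N) * tau g q)
    (hi := fun q => (1 + u / N) * tau g q)
    (fun q _ => mul_nonneg (by linarith) (htau q)) (fun q _ => mul_nonneg (by linarith) (htau q))
    (fun q hq x hx => (hW q hq x hx).1) (fun q hq x hx => (hW q hq x hx).2)
  have eF : ∫ x, FP m S h 0 x ∂(Un r) = ∫ x, (∏ i : S, ff i (Lin m i x + b i)) ∂(Un r) := by
    refine integral_congr_ae (Eventually.of_forall fun x => ?_)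
    simp only [FP, hh, Pi.zero_apply, add_zero]
  rw [eF] at hlow hup
  have hprod : 0 ≤ ∏ q ∈ S, tau g q := Finset.prod_nonneg fun q _ => htau q
  have hup1 : (∏ j, (1 + ξ / r j)) ≤ (1 + u / N) ^ k := by
    calc ∏ j, (1 + ξ / r j) ≤ ∏ _j : Fin k, (1 + u / N) := by
          refine Finset.prod_le_prod (fun j _ => by have := hr j; positivity) fun j _ => ?_
          have := hξr j
          linarith
      _ = _ := by simp
  have hlow1 : (1 - u / N) ^ k ≤ (∏ j, (1 - ξ / r j)) := by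
    calc (1 - u / N) ^ k = ∏ _j : Fin k, (1 - u / N) := by simp
      _ ≤ _ := by
          refine Finset.prod_le_prod (fun j _ => by linarith) fun j _ => ?_
          have := hξr j
          linarith
  have e3 : ∏ q ∈ S, (1 + u / N) * tau g q = (1 + u / N) ^ k * ∏ q ∈ S, tau g q := by
    rw [Finset.prod_mul_distrib, Finset.prod_const, hS]
  have e4 : ∏ q ∈ S, (1 - u / N) * tau g q = (1 - u / N) ^ k * ∏ q ∈ S, tau g q := by
    rw [Finset.prod_mul_distrib, Finset.prod_const, hS]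
  rw [e3] at hup
  rw [e4] at hlow
  have h1u : 0 ≤ 1 - u / N := by linarith
  have hb1 : (1 + u / N) ^ (2 * k) ≤ 1 + 2 ^ (2 * k) * u * 2 ^ (2 * k) / N := by
    refine (one_add_pow_le (2 * k) huN0 huN1).trans ?_
    have h2 : (1 : ℝ) ≤ 2 ^ (2 * k) := one_le_pow₀ (by norm_num)
    have h3 : (2 ^ (2 * k) - 1) * (u / N) ≤ 2 ^ (2 * k) * (u / N) * 2 ^ (2 * k) := by
      calc (2 ^ (2 * k) - 1) * (u / N) ≤ 2 ^ (2 * k) * (u / N) := by
            refine mul_le_mul_of_nonneg_right (by linarith) huN0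
        _ = 2 ^ (2 * k) * (u / N) * 1 := (mul_one _).symm
        _ ≤ _ := by gcongr
    have e : 2 ^ (2 * k) * u * 2 ^ (2 * k) / (N : ℝ) = 2 ^ (2 * k) * (u / N) * 2 ^ (2 * k) := by ring
    rw [e]
    linarith
  have hb2 : 1 - 2 ^ (2 * k) * u * 2 ^ (2 * k) / N ≤ (1 - u / N) ^ (2 * k) := by
    have h3 : 1 + ((2 * k : ℕ) : ℝ) * (-(u / N)) ≤ (1 + -(u / N)) ^ (2 * k) :=
      one_add_mul_le_pow (by linarith) (2 * k)
    have h4 : ((2 * k : ℕ) : ℝ) ≤ 2 ^ (2 * k) := by
      exact_mod_cast (Nat.lt_two_pow_self).le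
    have h2 : (1 : ℝ) ≤ 2 ^ (2 * k) := one_le_pow₀ (by norm_num)
    have h5 : ((2 * k : ℕ) : ℝ) * (u / N) ≤ 2 ^ (2 * k) * (u / N) * 2 ^ (2 * k) := by
      calc ((2 * k : ℕ) : ℝ) * (u / N) ≤ 2 ^ (2 * k) * (u / N) := by gcongr
        _ = 2 ^ (2 * k) * (u / N) * 1 := (mul_one _).symm
        _ ≤ _ := by gcongr
    have e : 2 ^ (2 * k) * u * 2 ^ (2 * k) / (N : ℝ) = 2 ^ (2 * k) * (u / N) * 2 ^ (2 * k) := by ring
    rw [e, sub_eq_add_neg 1 (u / N)]
    linarith
  rw [abs_le]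
  constructor
  · have h5 : (1 - 2 ^ (2 * k) * u * 2 ^ (2 * k) / N) * ∏ q ∈ S, tau g q ≤
        (∏ j, (1 - ξ / r j)) * ((1 - u / N) ^ k * ∏ q ∈ S, tau g q) := by
      calc (1 - 2 ^ (2 * k) * u * 2 ^ (2 * k) / N) * ∏ q ∈ S, tau g q ≤ (1 - u / N) ^ (2 * k) * ∏ q ∈ S, tau g q :=
            mul_le_mul_of_nonneg_right hb2 hprod
        _ = (1 - u / N) ^ k * ((1 - u / N) ^ k * ∏ q ∈ S, tau g q) := by ring
        _ ≤ _ := mul_le_mul_of_nonneg_right hlow1 (by positivity)
    linarith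
  · have h5 : (∏ j, (1 + ξ / r j)) * ((1 + u / N) ^ k * ∏ q ∈ S, tau g q) ≤
        (1 + 2 ^ (2 * k) * u * 2 ^ (2 * k) / N) * ∏ q ∈ S, tau g q := by
      calc (∏ j, (1 + ξ / r j)) * ((1 + u / N) ^ k * ∏ q ∈ S, tau g q) ≤
            (1 + u / N) ^ k * ((1 + u / N) ^ k * ∏ q ∈ S, tau g q) :=
            mul_le_mul_of_nonneg_right hup1 (by positivity)
        _ = (1 + u / N) ^ (2 * k) * ∏ q ∈ S, tau g q := by ring
        _ ≤ _ := mul_le_mul_of_nonneg_right hb1 hprod
    linarith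

section

variable {Ω : Type} [MeasurableSpace Ω] {P : Measure Ω} [IsProbabilityMeasure P] {r : ℕ → ℝ}
  {c : ℕ → Ω → ℝ}

/-- **Correlations of all orders, power saving.** -/
theorem corr2 (h : Coeffs P r c) {g : ℕ → ℝ} {a : ℝ} (ha : 0 < a)
    (hg : Tendsto (fun p : ℕ => g p / p) atTop (𝓝 a)) (m k : ℕ) :
    ∃ C : ℝ, 0 < C ∧ ∃ Z : ℕ, ∀ N : ℕ, Z ≤ N → ∀ S : Finset ℕ, S.card = k → (∀ q ∈ S, N ≤ q) →
      |∫ ω, (∏ q ∈ S, ff q (Fr g m c ω q)) ∂P - ∏ q ∈ S, tau g q| ≤ C / N * ∏ q ∈ S, tau g q := by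
  have hr0 : 0 ≤ ∑' j, r j := tsum_nonneg fun j => (h.rpos j).le
  obtain ⟨κ, hκ, C, hC, Z, hZ⟩ := core2 ha m k (r := fun j : Fin k => r j) (fun j => h.rpos j)
    (D := (∑' j, r j) + 1) (by linarith)
  have hcast := tendsto_natCast_atTop_atTop (R := ℝ)
  obtain ⟨Z1, hZ1⟩ := (hcast.eventually_ge_atTop ((2 / κ) * ∑' j, r j)).exists_forall_of_atTop
  obtain ⟨Z2, hZ2⟩ : ∃ Z2 : ℕ, ∀ q, Z2 ≤ q → |g q / q - a| ≤ κ / 2 := by
    have := (Metric.tendsto_nhds.1 hg) (κ / 2) (by positivity)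
    obtain ⟨Z2, h2⟩ := this.exists_forall_of_atTop
    exact ⟨Z2, fun q hq => (by have := h2 q hq; rw [Real.dist_eq] at this; exact this.le)⟩
  refine ⟨C, hC, max (max Z Z1) (max Z2 1), fun N hN S hS hSN => ?_⟩
  have hN0 : Z ≤ N := ((le_max_left _ _).trans (le_max_left _ _)).trans hN
  have hS1 : ∀ q ∈ S, Z1 ≤ q := fun q hq =>
    (((le_max_right _ _).trans (le_max_left _ _)).trans hN).trans (hSN q hq)
  have hS2 : ∀ q ∈ S, Z2 ≤ q := fun q hq =>
    (((le_max_left _ _).trans (le_max_right _ _)).trans hN).trans (hSN q hq)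
  have hS3 : ∀ q ∈ S, 1 ≤ q := fun q hq =>
    (((le_max_right _ _).trans (le_max_right _ _)).trans hN).trans (hSN q hq)
  set X : Ω → (Fin k → ℝ) := fun ω (j : Fin k) => c j ω with hX
  set Y : Ω → (ℕ → ℝ) := fun ω (j : ℕ) => c (k + j) ω with hY
  have hXm : Measurable X := measurable_pi_iff.2 fun j => h.meas j
  have hYm : Measurable Y := measurable_pi_iff.2 fun j => h.meas (k + j)
  set Φ : (Fin k → ℝ) × (ℕ → ℝ) → ℝ := fun z =>
    ∏ i : S, ff i (Lin m i z.1 + (g i + Tl r m k i z.2)) with hΦ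
  have hΦm : Measurable Φ := by
    refine Finset.measurable_prod _ fun i _ => (measurable_ff i).comp ?_
    exact ((measurable_Lin m i).comp measurable_fst).add
      (((measurable_Tl h.rpos h.rsum m k (hS3 i i.2)).comp measurable_snd).const_add _)
  have hΦ0 : ∀ z, 0 ≤ Φ z := fun z => Finset.prod_nonneg fun i _ => ff_nonneg _ _
  have hΦ1 : ∀ z, Φ z ≤ 1 := fun z => Finset.prod_le_one (fun i _ => ff_nonneg _ _) fun i _ => ff_le_one _ _
  have e1 : ∫ ω, (∏ q ∈ S, ff q (Fr g m c ω q)) ∂P = ∫ ω, Φ (X ω, Y ω) ∂P := by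
    refine integral_congr_ae ?_
    filter_upwards [h.ae_mem] with ω hω
    simp only [hΦ]
    rw [← Finset.prod_coe_sort S]
    refine Finset.prod_congr rfl fun i _ => ?_
    rw [h.Fr_eq g m k hω (hS3 i i.2)]
  have e2 : ∫ ω, Φ (X ω, Y ω) ∂P = ∫ z, Φ z ∂((P.map X).prod (P.map Y)) := by
    rw [← (indepFun_iff_map_prod_eq_prod_map_map hXm.aemeasurable hYm.aemeasurable).1 (h.indep_tail k),
      integral_map (hXm.prodMk hYm).aemeasurable hΦm.aestronglyMeasurable]
  have : IsProbabilityMeasure (P.map X) := Measure.isProbabilityMeasure_map hXm.aemeasurable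
  have : IsProbabilityMeasure (P.map Y) := Measure.isProbabilityMeasure_map hYm.aemeasurable
  have hint : Integrable Φ ((P.map X).prod (P.map Y)) := by
    refine Integrable.of_bound hΦm.aestronglyMeasurable 1 (Eventually.of_forall fun z => ?_)
    rw [Real.norm_of_nonneg (hΦ0 z)]
    exact hΦ1 z
  rw [e1, e2, integral_prod_symm _ hint]
  set ρ := ∏ q ∈ S, tau g q with hρ
  have hin : ∀ y : ℕ → ℝ, |∫ x, Φ (x, y) ∂(P.map X) - ρ| ≤ C / N * ρ := by
    intro y
    rw [hX, h.law k]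
    refine hZ N hN0 S hS hSN g (fun q => g q + Tl r m k q y) (fun q hq => ?_) (fun q hq => ?_)
    · have h3 := hS3 q hq
      have hq0 : (0 : ℝ) < q := by exact_mod_cast h3
      have h4 := abs_Tl_le h.rpos h.rsum m k h3 y
      have h5 := hZ1 q (hS1 q hq)
      have h6 := hZ2 q (hS2 q hq)
      have h7 : |g q - a * q| ≤ κ / 2 * q := by
        have e : g q - a * q = (g q / q - a) * q := by field_simp
        rw [e, abs_mul, abs_of_pos hq0]
        exact mul_le_mul_of_nonneg_right h6 hq0.le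
      have h8 : (κ / 2) * ((2 / κ) * ∑' j, r j) ≤ κ / 2 * q := by gcongr
      have h9 : (κ / 2) * ((2 / κ) * ∑' j, r j) = ∑' j, r j := by field_simp
      calc |g q + Tl r m k q y - a * q| = |(g q - a * q) + Tl r m k q y| := by congr 1; ring
        _ ≤ |g q - a * q| + |Tl r m k q y| := abs_add_le _ _
        _ ≤ κ * q := by linarith
    · have h4 := abs_Tl_le h.rpos h.rsum m k (hS3 q hq) y
      calc |g q - (g q + Tl r m k q y)| = |Tl r m k q y| := by
            rw [show g q - (g q + Tl r m k q y) = -(Tl r m k q y) by ring, abs_neg]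
        _ ≤ _ := by linarith
  have hint2 : Integrable (fun y => ∫ x, Φ (x, y) ∂(P.map X)) (P.map Y) := hint.integral_prod_right
  have e3 : ∫ y, (∫ x, Φ (x, y) ∂(P.map X)) ∂(P.map Y) - ρ =
      ∫ y, ((∫ x, Φ (x, y) ∂(P.map X)) - ρ) ∂(P.map Y) := by
    rw [integral_sub hint2 (integrable_const _), integral_const]
    simp
  rw [e3]
  have h10 := norm_integral_le_of_norm_le_const (μ := P.map Y) (f := fun y => (∫ x, Φ (x, y) ∂(P.map X)) - ρ)
    (C := C / N * ρ) (Eventually.of_forall fun y => by rw [Real.norm_eq_abs]; exact hin y)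
  rw [Real.norm_eq_abs] at h10
  simpa using h10

/-- factorial moments of the number of exponents in a set -/
theorem fact2 (h : Coeffs P r c) {g : ℕ → ℝ} {a : ℝ} (ha : 0 < a)
    (hg : Tendsto (fun p : ℕ => g p / p) atTop (𝓝 a)) (m k : ℕ) :
    ∃ C : ℝ, 0 < C ∧ ∃ Z : ℕ, ∀ N : ℕ, Z ≤ N → ∀ T : Finset ℕ, (∀ q ∈ T, N ≤ q) →
      |∫ ω, ((Cn g m c T ω).choose k : ℝ) ∂P - Es (tau g) k T| ≤ C / N * Es (tau g) k T := by
  obtain ⟨C, hC, Z, hZ⟩ := corr2 h ha hg m k
  refine ⟨C, hC, Z, fun N hN T hT => ?_⟩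
  have hint : ∀ S : Finset ℕ, Integrable (fun ω => ∏ q ∈ S, ff q (Fr g m c ω q)) P := by
    intro S
    refine Integrable.of_bound (C := 1) ?_ (Eventually.of_forall fun ω => ?_)
    · exact (Finset.measurable_prod _ fun q _ => (measurable_ff q).comp (h.measurable_Fr g m q)).aestronglyMeasurable
    · rw [Real.norm_of_nonneg (Finset.prod_nonneg fun q _ => ff_nonneg _ _)]
      exact Finset.prod_le_one (fun q _ => ff_nonneg _ _) fun q _ => ff_le_one _ _
  simp_rw [Cn_choose]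
  rw [integral_finsetSum _ fun S _ => hint _]
  unfold Es
  rw [← Finset.sum_sub_distrib, Finset.mul_sum]
  refine (Finset.abs_sum_le_sum_abs _ _).trans (Finset.sum_le_sum fun S hS => ?_)
  rw [Finset.mem_powersetCard] at hS
  exact hZ N hN S hS.2 fun q hq => hT q (hS.1 hq)

end

/-- elementary symmetric sums, with an error term of polynomial growth -/
lemma Es_poly {x : ℕ → ℝ} (hx : ∀ q, 0 ≤ x q) (T : Finset ℕ) : ∀ k : ℕ,
    (∑ q ∈ T, x q) ^ k / k.factorial ≤ Es x k T + (∑ q ∈ T, x q ^ 2) * (1 + ∑ q ∈ T, x q) ^ k := by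
  induction T using Finset.induction_on with
  | empty =>
    intro k
    rcases k with _ | k
    · simp [Es_zero]
    · rw [Es_empty]; simp
  | insert q T hq ih =>
    intro k
    rw [Finset.sum_insert hq, Finset.sum_insert hq]
    have hp : 0 ≤ ∑ q ∈ T, x q := Finset.sum_nonneg fun q _ => hx q
    have hp2 : 0 ≤ ∑ q ∈ T, x q ^ 2 := Finset.sum_nonneg fun q _ => by positivity
    have hxq := hx q
    set p := ∑ q ∈ T, x q
    set p2 := ∑ q ∈ T, x q ^ 2
    rcases k with _ | k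
    · rw [Es_zero]
      simp
      positivity
    · rw [Es_insert x k hq]
      have l1 := ih (k + 1)
      have l0 := ih k
      -- Taylor bound
      have h1 : (p + x q) ^ (k + 1) / (k + 1).factorial ≤
          p ^ (k + 1) / (k + 1).factorial + x q * (p ^ k / k.factorial) + x q ^ 2 * (1 + (x q + p)) ^ (k + 1) := by
        rcases k with _ | j
        · simp
          positivity
        · have h1 := pow_taylor hp hxq j
          have f0 : (0 : ℝ) < (j.factorial : ℝ) := by exact_mod_cast Nat.factorial_pos _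
          have f1 : (1 : ℝ) ≤ (j.factorial : ℝ) := by exact_mod_cast Nat.one_le_iff_ne_zero.2 (Nat.factorial_ne_zero _)
          have e1 : (((j + 1).factorial : ℕ) : ℝ) = (j + 1) * j.factorial := by
            rw [Nat.factorial_succ]; push_cast; ring
          have e2 : (((j + 1 + 1).factorial : ℕ) : ℝ) = (j + 2) * ((j + 1) * j.factorial) := by
            rw [Nat.factorial_succ, Nat.cast_mul, e1]; push_cast; ring
          rw [e1, e2]
          have h3 : x q ^ 2 * ((p + x q) ^ j / j.factorial) / 2 ≤ x q ^ 2 * (1 + (x q + p)) ^ (j + 1 + 1) := by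
            have h4 : (p + x q) ^ j / j.factorial ≤ (1 + (x q + p)) ^ (j + 1 + 1) := by
              have h5 : (p + x q) ^ j / j.factorial ≤ (p + x q) ^ j := div_le_self (by positivity) f1
              have h6 : (p + x q) ^ j ≤ (1 + (x q + p)) ^ j := pow_le_pow_left₀ (by positivity) (by linarith) _
              have h7 : (1 + (x q + p)) ^ j ≤ (1 + (x q + p)) ^ (j + 1 + 1) :=
                pow_le_pow_right₀ (by linarith) (by omega)
              linarith
            have h8 : 0 ≤ x q ^ 2 := by positivity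
            have h9 := mul_le_mul_of_nonneg_left h4 h8
            have h10 : 0 ≤ x q ^ 2 * ((p + x q) ^ j / j.factorial) := by positivity
            linarith
          have e3 : (p + x q) ^ (j + 1 + 1) / ((j + 2) * ((j + 1) * (j.factorial : ℝ))) ≤
              (p ^ (j + 2) + (j + 2) * x q * p ^ (j + 1) + (j + 2) * (j + 1) / 2 * x q ^ 2 * (p + x q) ^ j) /
                ((j + 2) * ((j + 1) * (j.factorial : ℝ))) := by
            gcongr
          refine e3.trans ?_
          have e4 : (p ^ (j + 2) + (j + 2) * x q * p ^ (j + 1) + (j + 2) * (j + 1) / 2 * x q ^ 2 * (p + x q) ^ j) /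
                ((j + 2) * ((j + 1) * (j.factorial : ℝ))) =
              p ^ (j + 1 + 1) / ((j + 2) * ((j + 1) * (j.factorial : ℝ))) +
                x q * (p ^ (j + 1) / ((j + 1) * (j.factorial : ℝ))) + x q ^ 2 * ((p + x q) ^ j / j.factorial) / 2 := by
            field_simp
          rw [e4]
          linarith
      have h3 := mul_le_mul_of_nonneg_left l0 hxq
      have h4 : (1 + p) ^ (k + 1) + x q * (1 + p) ^ k ≤ (1 + (x q + p)) ^ (k + 1) := by
        have h5 : (1 + p) ^ k ≤ (1 + (x q + p)) ^ k := pow_le_pow_left₀ (by linarith) (by linarith) _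
        have h6 : (1 + p) ^ (k + 1) + x q * (1 + p) ^ k = (1 + (x q + p)) * (1 + p) ^ k := by ring
        rw [h6, pow_succ (1 + (x q + p)), mul_comm ((1 + (x q + p)) ^ k)]
        exact mul_le_mul_of_nonneg_left h5 (by linarith)
      have h5 := mul_le_mul_of_nonneg_left h4 hp2
      have e : (x q ^ 2 + p2) * (1 + (x q + p)) ^ (k + 1) =
          x q ^ 2 * (1 + (x q + p)) ^ (k + 1) + p2 * (1 + (x q + p)) ^ (k + 1) := by ring
      rw [e, add_comm (x q) p]
      rw [add_comm (x q) p] at h1 h5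
      have e5 : p2 * ((1 + p) ^ (k + 1) + x q * (1 + p) ^ k) = p2 * (1 + p) ^ (k + 1) + x q * (p2 * (1 + p) ^ k) := by ring
      rw [e5] at h5
      have e6 : x q * (Es x k T + p2 * (1 + p) ^ k) = x q * Es x k T + x q * (p2 * (1 + p) ^ k) := by ring
      rw [e6] at h3
      linarith

end Pool.Agent.Helper18K9.CLT
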