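import Mathlib
import Pool.Agent.Helper601.Mertens
import Pool.Agent.TH888.R.Mean
import Pool.Agent.Helper18K9.CLT.Core2

set_option autoImplicit false

/-!
Sums of the reference densities over primes.
-/

namespace Pool.Agent.Helper18K9.CLT

open Finset Filter Topology MeasureTheory ProbabilityTheory
open Pool.Agent.H305R2 (ff ff_nonneg ff_le_one measurable_ff integrableOn_ff)
open Pool.Agent.Helper18K9.PL

/-- the constant -/
noncomputable def cst (a : ℝ) : ℝ := Real.exp Real.eulerMascheroniConstant / a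

lemma cst_pos {a : ℝ} (ha : 0 < a) : 0 < cst a := by unfold cst; positivity

/-- the primes in `(u, v]` -/
def TT (u v : ℕ) : Finset ℕ := (Finset.Ioc u v).filter Nat.Prime

lemma TT_union {u v : ℕ} (h : u ≤ v) : TT 0 v = TT 0 u ∪ TT u v := by
  ext q
  simp only [TT, Finset.mem_union, Finset.mem_filter, Finset.mem_Ioc]
  constructor
  · rintro ⟨⟨h1, h2⟩, h3⟩
    rcases le_or_gt q u with h4 | h4
    · exact Or.inl ⟨⟨h1, h4⟩, h3⟩
    · exact Or.inr ⟨⟨h4, h2⟩, h3⟩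
  · rintro (⟨⟨h1, h2⟩, h3⟩ | ⟨⟨h1, h2⟩, h3⟩)
    · exact ⟨⟨h1, h2.trans h⟩, h3⟩
    · exact ⟨⟨by omega, h2⟩, h3⟩

lemma TT_disj (u v : ℕ) : Disjoint (TT 0 u) (TT u v) := by
  rw [Finset.disjoint_left]
  intro q h1 h2
  simp only [TT, Finset.mem_filter, Finset.mem_Ioc] at h1 h2
  omega

lemma TT_sum {u v : ℕ} (h : u ≤ v) (f : ℕ → ℝ) :
    ∑ q ∈ TT 0 v, f q = ∑ q ∈ TT 0 u, f q + ∑ q ∈ TT u v, f q := by
  rw [TT_union h, Finset.sum_union (TT_disj u v)]

lemma Cn_split {Ω : Type} (g : ℕ → ℝ) (m : ℕ) (c : ℕ → Ω → ℝ) {u v : ℕ} (h : u ≤ v) (ω : Ω) :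
    Cn g m c (TT 0 v) ω = Cn g m c (TT 0 u) ω + Cn g m c (TT u v) ω := by
  unfold Cn
  rw [TT_union h, Finset.filter_union, Finset.card_union_of_disjoint]
  exact Finset.disjoint_filter_filter (TT_disj u v)

/-- the reference densities are asymptotic to `rho` -/
lemma tau_rho {g : ℕ → ℝ} {a : ℝ} (ha : 0 < a) (hg : Tendsto (fun p : ℕ => g p / p) atTop (𝓝 a)) {ε : ℝ}
    (hε : 0 < ε) : ∃ Z : ℕ, ∀ q, Z ≤ q → |tau g q - rho a q| ≤ ε * rho a q := by
  set e1 := (min ε 1) / 4 with he1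
  have he10 : 0 < e1 := by have : 0 < min ε 1 := lt_min hε one_pos; positivity
  have he11 : e1 ≤ 1 / 4 := by have : min ε 1 ≤ 1 := min_le_right _ _; rw [he1]; linarith
  have he12 : 4 * e1 ≤ ε := by have : min ε 1 ≤ ε := min_le_left _ _; rw [he1]; linarith
  have hc := cst_pos ha
  obtain ⟨η, hη, κ, hκ, P, hw⟩ := win ha 1 (ε := cst a * e1) (by positivity)
  obtain ⟨K, hK, κ', hκ', P', hm⟩ := mean2 (D := 1) ha one_pos 1 le_rfl
  have hcast := tendsto_natCast_atTop_atTop (R := ℝ)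
  obtain ⟨Z1, hZ1⟩ := (hcast.eventually_ge_atTop (max (max 3 (2 * K / e1)) (1 / η))).exists_forall_of_atTop
  obtain ⟨Z2, hZ2⟩ : ∃ Z2 : ℕ, ∀ q, Z2 ≤ q → |g q / q - a| ≤ min κ κ' := by
    have := (Metric.tendsto_nhds.1 hg) (min κ κ') (lt_min hκ hκ')
    obtain ⟨Z2, h2⟩ := this.exists_forall_of_atTop
    exact ⟨Z2, fun q hq => (by have := h2 q hq; rw [Real.dist_eq] at this; exact this.le)⟩
  refine ⟨max (max P P') (max Z1 Z2), fun q hq => ?_⟩
  have q1 : P ≤ q := ((le_max_left _ _).trans (le_max_left _ _)).trans hq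
  have q2 : P' ≤ q := ((le_max_right _ _).trans (le_max_left _ _)).trans hq
  have q3 : Z1 ≤ q := ((le_max_left _ _).trans (le_max_right _ _)).trans hq
  have q4 : Z2 ≤ q := ((le_max_right _ _).trans (le_max_right _ _)).trans hq
  have h5 := hZ1 q q3
  have hq3 : (3 : ℝ) ≤ q := ((le_max_left _ _).trans (le_max_left _ _)).trans h5
  have hqK : 2 * K / e1 ≤ q := ((le_max_right _ _).trans (le_max_left _ _)).trans h5
  have hqη : 1 / η ≤ q := (le_max_right _ _).trans h5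
  have hq0 : (0 : ℝ) < q := by linarith
  have hlog : 0 < Real.log q := Real.log_pos (by linarith)
  have hgq : |g q - a * q| ≤ min κ κ' * q := by
    have e : g q - a * q = (g q / q - a) * q := by field_simp
    rw [e, abs_mul, abs_of_pos hq0]
    exact mul_le_mul_of_nonneg_right (hZ2 q q4) hq0.le
  have hl0 : (0 : ℝ) < (q : ℝ)⁻¹ := by positivity
  have hlη : (q : ℝ)⁻¹ ≤ η := by
    rw [inv_le_comm₀ hq0 hη, ← one_div]
    exact hqη
  have h6 := hw q q1 (q : ℝ)⁻¹ (by rw [pow_one]) hlη (g q) (hgq.trans (by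
    refine mul_le_mul_of_nonneg_right (min_le_left _ _) hq0.le))
  obtain ⟨h7, h8⟩ := hm q q2 (q : ℝ)⁻¹ (by rw [pow_one]) le_rfl (g q) (g q) (hgq.trans (by
    refine mul_le_mul_of_nonneg_right (min_le_right _ _) hq0.le)) (by simp)
  have htau : Sm q 1 (g q) = tau g q := rfl
  rw [htau] at h7 h8
  set s := Sm q (q : ℝ)⁻¹ (g q) with hs
  set s' := tau g q with hs'
  set ρ := rho a q with hρ
  have hρe : ρ = cst a * (Real.log q / q) := rfl
  have hρ0 : 0 < ρ := by rw [hρe]; positivity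
  -- `|s - ρ| ≤ e1 ρ`
  have h9 : |s - ρ| ≤ e1 * ρ := by
    have e2 : ∫ t in Set.Ioc (g q) (g q + (q : ℝ)⁻¹), ff q t = s * (q : ℝ)⁻¹ := by
      rw [hs, Sm]; field_simp
    rw [e2] at h6
    have e3 : s * (q : ℝ)⁻¹ * (q / Real.log q) - Real.exp Real.eulerMascheroniConstant / a * (q : ℝ)⁻¹ =
        (s - ρ) * (1 / Real.log q) := by
      rw [hρe, cst]
      field_simp
    rw [e3, abs_mul, abs_of_pos (by positivity : (0 : ℝ) < 1 / Real.log q), mul_one_div, div_le_iff₀ hlog] at h6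
    refine h6.trans (le_of_eq ?_)
    rw [hρe]
    field_simp
  have h10 : K / q ≤ e1 / 2 := by
    rw [div_le_iff₀ he10] at hqK
    rw [div_le_iff₀ hq0]
    linarith
  have h11 : |s - s'| ≤ e1 / 2 * s' := h7.trans (mul_le_mul_of_nonneg_right h10 h8.le)
  have h12 : s' ≤ 2 * ρ := by
    have a1 := (abs_le.1 h11).1
    have a2 := (abs_le.1 h9).2
    nlinarith
  have h13 : e1 / 2 * s' ≤ e1 * ρ := by
    have := mul_le_mul_of_nonneg_left h12 (by positivity : (0 : ℝ) ≤ e1 / 2)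
    linarith
  calc |s' - ρ| = |(s - ρ) - (s - s')| := by congr 1; ring
    _ ≤ |s - ρ| + |s - s'| := abs_sub _ _
    _ ≤ e1 * ρ + e1 * ρ := add_le_add h9 (h11.trans h13)
    _ ≤ 4 * e1 * ρ := by
        have : 0 < e1 * ρ := by positivity
        linarith
    _ ≤ ε * ρ := mul_le_mul_of_nonneg_right he12 hρ0.le

/-- for bounded `g p - a p` the reference densities are very close to `rho` -/
lemma tau_rho2 {g : ℕ → ℝ} {a D : ℝ} (ha : 0 < a) (hg : ∀ p : ℕ, |g p - a * p| ≤ D) :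
    ∃ K : ℝ, 0 < K ∧ ∃ Z : ℕ, ∀ q, Z ≤ q → |tau g q - rho a q| ≤ K / q := by
  obtain ⟨K, hK, h⟩ := Pool.Agent.TH888.R.LL_rate ha D
  obtain ⟨Z, hZ⟩ := h.exists_forall_of_atTop
  refine ⟨K, hK, Z, fun q hq => ?_⟩
  have h1 := hZ q hq (g q) (hg q)
  have e1 : tau g q = Pool.Agent.H305R2.LL q (g q) := by
    unfold tau Sm Pool.Agent.H305R2.LL
    rw [div_one]
  rw [e1]
  exact h1

lemma rho_sum {a : ℝ} (ha : 0 < a) : ∃ C : ℝ, 0 < C ∧ ∀ N : ℕ, 1 ≤ N →
    |∑ q ∈ TT 0 N, rho a q - cst a * Real.log N| ≤ C := by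
  obtain ⟨C, hC⟩ := Pool.Agent.Helper601.Mertens.mertens_log
  have hc := cst_pos ha
  refine ⟨cst a * (|C| + 1), by positivity, fun N hN => ?_⟩
  have h1 := hC N hN
  have e1 : (Finset.Icc 1 N).filter Nat.Prime = TT 0 N := rfl
  rw [e1] at h1
  have e2 : ∑ q ∈ TT 0 N, rho a q - cst a * Real.log N =
      cst a * (∑ q ∈ TT 0 N, Real.log q / q - Real.log N) := by
    unfold rho cst
    rw [← Finset.mul_sum]
    ring
  rw [e2, abs_mul, abs_of_pos hc]
  refine mul_le_mul_of_nonneg_left (h1.trans ?_) hc.le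
  linarith [le_abs_self C]

lemma inv_sum : ∃ C : ℝ, 0 < C ∧ ∀ N : ℕ, 3 ≤ N →
    ∑ q ∈ TT 0 N, (1 : ℝ) / q ≤ Real.log (Real.log N) + C := by
  obtain ⟨C, hC⟩ := Pool.Agent.Helper601.Mertens.mertens_inv
  refine ⟨|C| + 1, by positivity, fun N hN => ?_⟩
  have h1 := hC N hN
  have e1 : (Finset.Icc 1 N).filter Nat.Prime = TT 0 N := rfl
  rw [e1] at h1
  have h2 := (abs_le.1 h1).2
  linarith [le_abs_self C]

/-! ### the sequences -/

/-- `(log n) ^ (1/4)` -/
noncomputable def xx (n : ℕ) : ℝ := Real.sqrt (Real.sqrt (Real.log n))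

/-- the lower cutoff -/
noncomputable def Nn (n : ℕ) : ℕ := ⌊Real.exp (xx n)⌋₊

lemma log_lim : Tendsto (fun n : ℕ => Real.log n) atTop atTop :=
  Real.tendsto_log_atTop.comp tendsto_natCast_atTop_atTop

lemma xx_lim : Tendsto xx atTop atTop :=
  Real.tendsto_sqrt_atTop.comp (Real.tendsto_sqrt_atTop.comp log_lim)

lemma xx_nonneg (n : ℕ) : 0 ≤ xx n := Real.sqrt_nonneg _

lemma xx_sq (n : ℕ) : xx n ^ 2 = Real.sqrt (Real.log n) := Real.sq_sqrt (Real.sqrt_nonneg _)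

lemma xx_four (n : ℕ) : xx n ^ 4 = Real.log n := by
  have : xx n ^ 4 = (xx n ^ 2) ^ 2 := by ring
  rw [this, xx_sq, Real.sq_sqrt (Real.log_natCast_nonneg n)]

lemma Nn_lim : Tendsto Nn atTop atTop :=
  tendsto_nat_floor_atTop.comp (Real.tendsto_exp_atTop.comp xx_lim)

lemma one_le_Nn (n : ℕ) : 1 ≤ Nn n := by
  unfold Nn
  rw [Nat.one_le_floor_iff]
  exact Real.one_le_exp (xx_nonneg n)

lemma Nn_le (n : ℕ) : (Nn n : ℝ) ≤ Real.exp (xx n) := Nat.floor_le (Real.exp_pos _).le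

lemma log_Nn_le (n : ℕ) : Real.log (Nn n) ≤ xx n := by
  have h1 : (0 : ℝ) < Nn n := by exact_mod_cast one_le_Nn n
  rw [Real.log_le_iff_le_exp h1]
  exact Nn_le n

lemma half_le_Nn (n : ℕ) : Real.exp (xx n) / 2 ≤ Nn n := by
  have h1 : (1 : ℝ) ≤ Nn n := by exact_mod_cast one_le_Nn n
  have h2 : Real.exp (xx n) < Nn n + 1 := Nat.lt_floor_add_one _
  linarith

lemma Nn_le_self : ∀ᶠ n : ℕ in atTop, Nn n ≤ n := by
  filter_upwards [xx_lim.eventually_ge_atTop 1, eventually_ge_atTop 1] with n h1 h2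
  have h3 : xx n ≤ Real.log n := by
    rw [← xx_four n]
    nlinarith [one_le_pow₀ h1 (n := 3)]
  have h4 : (0 : ℝ) < n := by exact_mod_cast h2
  have h5 : (Nn n : ℝ) ≤ n := by
    refine (Nn_le n).trans ?_
    rw [← Real.le_log_iff_exp_le h4]
    exact h3
  exact_mod_cast h5

/-- `(A + B (log n)^(1/4)) / sqrt (log n) → 0` -/
lemma small_lim (A B : ℝ) : Tendsto (fun n : ℕ => (A + B * xx n) / Real.sqrt (Real.log n)) atTop (𝓝 0) := by
  have h1 : Tendsto (fun n => (xx n)⁻¹) atTop (𝓝 0) := tendsto_inv_atTop_zero.comp xx_lim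
  have h2 : Tendsto (fun n => A * (xx n)⁻¹ ^ 2 + B * (xx n)⁻¹) atTop (𝓝 (A * 0 ^ 2 + B * 0)) :=
    ((h1.pow 2).const_mul A).add (h1.const_mul B)
  have e : A * (0 : ℝ) ^ 2 + B * 0 = 0 := by ring
  rw [e] at h2
  refine h2.congr' ?_
  filter_upwards [xx_lim.eventually_gt_atTop 0] with n hn
  rw [← xx_sq n]
  field_simp

lemma small_lim4 (A B : ℝ) : Tendsto (fun n : ℕ => (A + B * xx n) / Real.log n) atTop (𝓝 0) := by
  have h1 : Tendsto (fun n => (xx n)⁻¹) atTop (𝓝 0) := tendsto_inv_atTop_zero.comp xx_lim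
  have h2 : Tendsto (fun n => A * (xx n)⁻¹ ^ 4 + B * (xx n)⁻¹ ^ 3) atTop (𝓝 (A * 0 ^ 4 + B * 0 ^ 3)) :=
    ((h1.pow 4).const_mul A).add ((h1.pow 3).const_mul B)
  have e : A * (0 : ℝ) ^ 4 + B * 0 ^ 3 = 0 := by ring
  rw [e] at h2
  refine h2.congr' ?_
  filter_upwards [xx_lim.eventually_gt_atTop 0] with n hn
  rw [← xx_four n]
  field_simp

/-- the sum over the window `(Nn n, n]` of `rho` -/
lemma rho_window {a : ℝ} (ha : 0 < a) : ∃ C : ℝ, 0 < C ∧ ∀ᶠ n : ℕ in atTop,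
    |∑ q ∈ TT (Nn n) n, rho a q - cst a * Real.log n| ≤ C + cst a * xx n := by
  obtain ⟨C, hC, h⟩ := rho_sum ha
  have hc := cst_pos ha
  refine ⟨2 * C, by positivity, ?_⟩
  filter_upwards [Nn_le_self, eventually_ge_atTop 1] with n h1 h2
  have h3 := TT_sum h1 (fun q => rho a q)
  have h4 := abs_le.1 (h n h2)
  have h5 := abs_le.1 (h (Nn n) (one_le_Nn n))
  have h6 := log_Nn_le n
  have h7 : 0 ≤ Real.log (Nn n) := Real.log_natCast_nonneg _
  have h8 : cst a * Real.log (Nn n) ≤ cst a * xx n := mul_le_mul_of_nonneg_left h6 hc.le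
  have h9 : 0 ≤ cst a * Real.log (Nn n) := by positivity
  rw [abs_le]
  constructor <;> linarith [h4.1, h4.2, h5.1, h5.2]

/-- the reference mean -/
noncomputable def mu (g : ℕ → ℝ) (n : ℕ) : ℝ := ∑ q ∈ TT (Nn n) n, tau g q

lemma mu_nonneg (g : ℕ → ℝ) (n : ℕ) : 0 ≤ mu g n := Finset.sum_nonneg fun q _ => tau_nonneg g q

lemma mu_lim {g : ℕ → ℝ} {a : ℝ} (ha : 0 < a) (hg : Tendsto (fun p : ℕ => g p / p) atTop (𝓝 a)) :
    Tendsto (fun n : ℕ => mu g n / (cst a * Real.log n)) atTop (𝓝 1) := by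
  have hc := cst_pos ha
  obtain ⟨C, hC, hw⟩ := rho_window ha
  rw [Metric.tendsto_nhds]
  intro ε hε
  set e1 := (min ε 1) / 4 with he1
  have he10 : 0 < e1 := by have : 0 < min ε 1 := lt_min hε one_pos; positivity
  have he11 : e1 ≤ 1 / 4 := by have : min ε 1 ≤ 1 := min_le_right _ _; rw [he1]; linarith
  have he12 : 4 * e1 ≤ ε := by have : min ε 1 ≤ ε := min_le_left _ _; rw [he1]; linarith
  obtain ⟨Z, hZ⟩ := tau_rho ha hg he10
  have h1 := small_lim4 C (cst a)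
  filter_upwards [hw, Nn_lim.eventually_ge_atTop Z, h1.eventually_lt_const (show (0 : ℝ) < cst a * e1 by positivity),
    log_lim.eventually_gt_atTop 0] with n hn1 hn2 hn3 hn4
  rw [div_lt_iff₀ hn4] at hn3
  set L := cst a * Real.log n with hL
  have hL0 : 0 < L := by positivity
  have h2 : |mu g n - ∑ q ∈ TT (Nn n) n, rho a q| ≤ e1 * ∑ q ∈ TT (Nn n) n, rho a q := by
    unfold mu
    rw [← Finset.sum_sub_distrib, Finset.mul_sum]
    refine (Finset.abs_sum_le_sum_abs _ _).trans (Finset.sum_le_sum fun q hq => ?_)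
    refine hZ q (hn2.trans ?_)
    simp only [TT, Finset.mem_filter, Finset.mem_Ioc] at hq
    omega
  set R := ∑ q ∈ TT (Nn n) n, rho a q
  have h3 : |R - L| ≤ e1 * L := hn1.trans (by rw [hL]; linarith)
  have h4 : R ≤ 2 * L := by
    have := (abs_le.1 h3).2
    nlinarith
  have h5 : |mu g n - L| ≤ 3 * e1 * L := by
    calc |mu g n - L| = |(mu g n - R) + (R - L)| := by congr 1; ring
      _ ≤ |mu g n - R| + |R - L| := abs_add_le _ _
      _ ≤ e1 * (2 * L) + e1 * L := by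
          refine add_le_add (h2.trans ?_) h3
          exact mul_le_mul_of_nonneg_left h4 he10.le
      _ = _ := by ring
  rw [Real.dist_eq]
  have e : mu g n / L - 1 = (mu g n - L) / L := by field_simp
  rw [e, abs_div, abs_of_pos hL0, div_lt_iff₀ hL0]
  have : 0 < e1 * L := by positivity
  calc |mu g n - L| ≤ 3 * e1 * L := h5
    _ < 4 * e1 * L := by linarith
    _ ≤ ε * L := mul_le_mul_of_nonneg_right he12 hL0.le

/-- in the bounded case the reference mean is close to `cst a * log n` -/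
lemma mu_lim2 {g : ℕ → ℝ} {a D : ℝ} (ha : 0 < a) (hg : ∀ p : ℕ, |g p - a * p| ≤ D) :
    Tendsto (fun n : ℕ => (cst a * Real.log n - mu g n) / Real.sqrt (Real.log n)) atTop (𝓝 0) := by
  have hc := cst_pos ha
  obtain ⟨C, hC, hw⟩ := rho_window ha
  obtain ⟨K, hK, Z, hZ⟩ := tau_rho2 ha hg
  obtain ⟨C', hC', hI⟩ := inv_sum
  have h1 := small_lim (C + K * C') (cst a)
  have h2 : Tendsto (fun n : ℕ => K * (Real.log (Real.log n) / Real.sqrt (Real.log n))) atTop (𝓝 0) := by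
    have h3 : Tendsto (fun y : ℝ => Real.log y / Real.sqrt y) atTop (𝓝 0) := by
      have := (isLittleO_log_rpow_atTop (show (0 : ℝ) < 1 / 2 by norm_num)).tendsto_div_nhds_zero
      refine this.congr fun y => ?_
      rw [Real.sqrt_eq_rpow]
    have h4 := (h3.comp log_lim).const_mul K
    rw [mul_zero] at h4
    exact h4
  have h3 := h1.add h2
  rw [add_zero] at h3
  refine squeeze_zero_norm' ?_ h3
  filter_upwards [hw, Nn_lim.eventually_ge_atTop Z, Nn_le_self, eventually_ge_atTop 3,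
    log_lim.eventually_gt_atTop 0] with n hn1 hn2 hn3 hn4 hn5
  have h5 : |mu g n - ∑ q ∈ TT (Nn n) n, rho a q| ≤ K * (Real.log (Real.log n) + C') := by
    unfold mu
    rw [← Finset.sum_sub_distrib]
    calc |∑ q ∈ TT (Nn n) n, (tau g q - rho a q)| ≤ ∑ q ∈ TT (Nn n) n, |tau g q - rho a q| :=
          Finset.abs_sum_le_sum_abs _ _
      _ ≤ ∑ q ∈ TT (Nn n) n, K * (1 / (q : ℝ)) := by
          refine Finset.sum_le_sum fun q hq => ?_
          rw [mul_one_div]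
          refine hZ q (hn2.trans ?_)
          simp only [TT, Finset.mem_filter, Finset.mem_Ioc] at hq
          omega
      _ = K * ∑ q ∈ TT (Nn n) n, (1 / (q : ℝ)) := by rw [Finset.mul_sum]
      _ ≤ K * ∑ q ∈ TT 0 n, (1 / (q : ℝ)) := by
          refine mul_le_mul_of_nonneg_left ?_ hK.le
          rw [TT_sum hn3]
          have : 0 ≤ ∑ q ∈ TT 0 (Nn n), (1 / (q : ℝ)) := Finset.sum_nonneg fun q _ => by positivity
          linarith
      _ ≤ _ := mul_le_mul_of_nonneg_left (hI n hn4) hK.le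
  rw [Real.norm_eq_abs, abs_div, abs_of_nonneg (Real.sqrt_nonneg _)]
  have hs : 0 < Real.sqrt (Real.log n) := Real.sqrt_pos.2 hn5
  rw [← mul_div_assoc, ← add_div]
  refine div_le_div_of_nonneg_right ?_ hs.le
  calc |cst a * Real.log n - mu g n| =
        |-(∑ q ∈ TT (Nn n) n, rho a q - cst a * Real.log n) - (mu g n - ∑ q ∈ TT (Nn n) n, rho a q)| := by
          congr 1; ring
    _ ≤ |-(∑ q ∈ TT (Nn n) n, rho a q - cst a * Real.log n)| + |mu g n - ∑ q ∈ TT (Nn n) n, rho a q| :=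
        abs_sub _ _
    _ ≤ (C + cst a * xx n) + K * (Real.log (Real.log n) + C') := by
        rw [abs_neg]
        exact add_le_add hn1 h5
    _ = _ := by ring

end Pool.Agent.Helper18K9.CLT
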