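import Mathlib
import Pool.Agent.Helper18K9.CLT.Sum2
import Pool.Agent.Helper18K9.CLT.Char
import Pool.Agent.Helper18K9.CLT.Levy

set_option autoImplicit false

/-!
The central limit theorem for the number of exponents.
-/

namespace Pool.Agent.Helper18K9.CLT

open Finset Filter Topology MeasureTheory ProbabilityTheory
open Pool.Agent.H305R2 (ff ff_nonneg ff_le_one measurable_ff integrableOn_ff)
open Pool.Agent.Helper18K9.PL

lemma Cn_le {Ω : Type} (g : ℕ → ℝ) (m : ℕ) (c : ℕ → Ω → ℝ) (T : Finset ℕ) (ω : Ω) :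
    Cn g m c T ω ≤ T.card := by
  unfold Cn
  exact Finset.card_filter_le _ _

lemma TT_card_le (N : ℕ) : (TT 0 N).card ≤ N := by
  unfold TT
  refine (Finset.card_filter_le _ _).trans ?_
  rw [Nat.card_Ioc]
  omega

lemma mu_log {g : ℕ → ℝ} {a : ℝ} (ha : 0 < a) (hg : Tendsto (fun p : ℕ => g p / p) atTop (𝓝 a)) :
    ∀ᶠ n : ℕ in atTop, cst a * Real.log n / 2 ≤ mu g n ∧ mu g n ≤ 2 * cst a * Real.log n := by
  have hc := cst_pos ha
  have h1 := mu_lim ha hg
  filter_upwards [h1.eventually_lt_const (show (1 : ℝ) < 2 by norm_num),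
    h1.eventually_const_lt (show (1 / 2 : ℝ) < 1 by norm_num), log_lim.eventually_gt_atTop 0] with n h2 h3 h4
  have h5 : 0 < cst a * Real.log n := by positivity
  rw [div_lt_iff₀ h5] at h2
  rw [lt_div_iff₀ h5] at h3
  constructor <;> linarith

lemma mu_atTop {g : ℕ → ℝ} {a : ℝ} (ha : 0 < a) (hg : Tendsto (fun p : ℕ => g p / p) atTop (𝓝 a)) :
    Tendsto (mu g) atTop atTop := by
  have hc := cst_pos ha
  have h1 : Tendsto (fun n : ℕ => cst a / 2 * Real.log n) atTop atTop :=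
    log_lim.const_mul_atTop (by positivity)
  refine tendsto_atTop_mono' _ ?_ h1
  filter_upwards [mu_log ha hg] with n hn
  linarith [hn.1]

lemma poly_exp (A : ℝ) (B : ℝ) (J : ℕ) :
    Tendsto (fun n : ℕ => A * ((1 + |B| * xx n ^ 4) ^ J * Real.exp (-(xx n / 2)))) atTop (𝓝 0) := by
  have h1 := (Real.tendsto_pow_mul_exp_neg_atTop_nhds_zero (4 * J)).comp
    (xx_lim.const_mul_atTop (show (0 : ℝ) < 1 / 2 by norm_num))
  have h2 := h1.const_mul (|A| * ((1 + |B|) ^ J * 2 ^ (4 * J)))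
  rw [mul_zero] at h2
  refine squeeze_zero_norm' ?_ h2
  filter_upwards [xx_lim.eventually_ge_atTop 1] with n hn
  simp only [Function.comp]
  have hB := abs_nonneg B
  have h3 : 1 + |B| * xx n ^ 4 ≤ (1 + |B|) * xx n ^ 4 := by
    have : 1 ≤ xx n ^ 4 := one_le_pow₀ hn
    nlinarith
  have h4 : (1 + |B| * xx n ^ 4) ^ J ≤ (1 + |B|) ^ J * xx n ^ (4 * J) := by
    rw [pow_mul, ← mul_pow]
    exact pow_le_pow_left₀ (by positivity) h3 _
  rw [norm_mul, Real.norm_eq_abs, Real.norm_of_nonneg (by positivity)]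
  have e1 : |A| * ((1 + |B|) ^ J * 2 ^ (4 * J)) * ((1 / 2 * xx n) ^ (4 * J) * Real.exp (-(1 / 2 * xx n))) =
      |A| * ((1 + |B|) ^ J * xx n ^ (4 * J) * Real.exp (-(xx n / 2))) := by
    rw [mul_pow, div_pow, one_pow]
    have : (1 / 2 * xx n) = xx n / 2 := by ring
    rw [this]
    field_simp
  rw [e1]
  gcongr

section

variable {Ω : Type} [MeasurableSpace Ω] {P : Measure Ω} [IsProbabilityMeasure P] {r : ℕ → ℝ}
  {c : ℕ → Ω → ℝ}

/-- factorial moments of the number of exponents in `(Nn n, n]` -/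
lemma hmom (h : Coeffs P r c) {g : ℕ → ℝ} {a : ℝ} (ha : 0 < a)
    (hg : Tendsto (fun p : ℕ => g p / p) atTop (𝓝 a)) (m k K : ℕ) :
    Tendsto (fun n => mu g n ^ K *
      |∫ ω, ((Cn g m c (TT (Nn n) n) ω).choose k : ℝ) ∂P - mu g n ^ k / (k.factorial : ℝ)|) atTop (𝓝 0) := by
  have hc := cst_pos ha
  obtain ⟨C, hC, Z, hZ⟩ := fact2 h ha hg m k
  obtain ⟨Z', hZ'⟩ := tau_rho ha hg one_pos
  have h1 := poly_exp (2 * (C + 4 * cst a)) (2 * cst a) (k + K + 1)
  refine squeeze_zero' (Eventually.of_forall fun n => by have := mu_nonneg g n; positivity) ?_ h1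
  filter_upwards [mu_log ha hg, Nn_lim.eventually_ge_atTop Z, Nn_lim.eventually_ge_atTop Z'] with n hn1 hn2 hn3
  set T := TT (Nn n) n with hT
  have hTq : ∀ q ∈ T, Nn n ≤ q := by
    intro q hq
    simp only [hT, TT, Finset.mem_filter, Finset.mem_Ioc] at hq
    omega
  have hμ0 := mu_nonneg g n
  set μ := mu g n with hμ
  have hμe : μ = ∑ q ∈ T, tau g q := rfl
  have hN1 : (1 : ℝ) ≤ Nn n := by exact_mod_cast one_le_Nn n
  have hN0 : (0 : ℝ) < Nn n := by linarith
  have hkf : (1 : ℝ) ≤ (k.factorial : ℝ) := by exact_mod_cast Nat.one_le_iff_ne_zero.2 (Nat.factorial_ne_zero _)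
  have h2 := hZ (Nn n) hn2 T hTq
  obtain ⟨h3, -⟩ := Es_bounds (tau_nonneg g) T k
  have h4 := Es_poly (tau_nonneg g) T k
  rw [← hμe] at h3 h4
  have hEs0 := Es_nonneg (tau_nonneg g) k T
  -- squares
  have hsq : ∑ q ∈ T, tau g q ^ 2 ≤ 4 * cst a / Real.sqrt (Nn n) * μ := by
    rw [hμe, Finset.mul_sum]
    refine Finset.sum_le_sum fun q hq => ?_
    have h5 := hTq q hq
    have h6 := hZ' q (hn3.trans h5)
    have h7 : tau g q ≤ 2 * rho a q := by have := (abs_le.1 h6).2; linarith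
    have hq1 : (1 : ℝ) ≤ q := by
      have : (Nn n : ℝ) ≤ q := by exact_mod_cast h5
      linarith
    have hsq0 : 0 < Real.sqrt q := Real.sqrt_pos.2 (by linarith)
    have h8 : Real.log q / q ≤ 2 / Real.sqrt q := by
      have h9 : Real.log q ≤ 2 * Real.sqrt q := by
        have e1 : Real.log q = 2 * Real.log (Real.sqrt q) := by
          rw [Real.log_sqrt (by linarith)]; ring
        rw [e1]
        have := Real.log_le_sub_one_of_pos hsq0
        linarith
      have e2 : (2 : ℝ) / Real.sqrt q = 2 * Real.sqrt q / q := by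
        have : Real.sqrt q * Real.sqrt q = q := Real.mul_self_sqrt (by linarith)
        rw [div_eq_div_iff hsq0.ne' (by linarith), mul_assoc, this]
      rw [e2]
      exact div_le_div_of_nonneg_right h9 (by linarith)
    have h9 : 2 / Real.sqrt q ≤ 2 / Real.sqrt (Nn n) := by
      refine div_le_div_of_nonneg_left (by norm_num) (Real.sqrt_pos.2 hN0) (Real.sqrt_le_sqrt ?_)
      exact_mod_cast h5
    have h10 : tau g q ≤ 4 * cst a / Real.sqrt (Nn n) := by
      calc tau g q ≤ 2 * rho a q := h7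
        _ = 2 * cst a * (Real.log q / q) := by unfold rho cst; ring
        _ ≤ 2 * cst a * (2 / Real.sqrt (Nn n)) := by
            refine mul_le_mul_of_nonneg_left (h8.trans h9) (by positivity)
        _ = _ := by ring
    rw [pow_two]
    exact mul_le_mul_of_nonneg_right h10 (tau_nonneg g q)
  set I := ∫ ω, ((Cn g m c T ω).choose k : ℝ) ∂P with hI
  set s := (Real.sqrt (Nn n))⁻¹ with hs
  have hs0 : 0 < s := inv_pos.2 (Real.sqrt_pos.2 hN0)
  have hNs : 1 / (Nn n : ℝ) ≤ s := by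
    rw [hs, ← one_div]
    refine one_div_le_one_div_of_le (Real.sqrt_pos.2 hN0) ?_
    rw [Real.sqrt_le_left hN0.le]
    nlinarith
  have hμk : μ ^ k / (k.factorial : ℝ) ≤ (1 + μ) ^ k :=
    (div_le_self (by positivity) hkf).trans (pow_le_pow_left₀ hμ0 (by linarith) _)
  have hI1 : |I - Es (tau g) k T| ≤ C * s * (1 + μ) ^ k := by
    calc |I - Es (tau g) k T| ≤ C / Nn n * Es (tau g) k T := h2
      _ = C * (1 / Nn n) * Es (tau g) k T := by ring
      _ ≤ C * s * (1 + μ) ^ k := by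
          have := h3.trans hμk
          gcongr
  have hI2 : |Es (tau g) k T - μ ^ k / (k.factorial : ℝ)| ≤ 4 * cst a * s * (1 + μ) ^ (k + 1) := by
    have h5 : (∑ q ∈ T, tau g q ^ 2) * (1 + μ) ^ k ≤ 4 * cst a * s * (1 + μ) ^ (k + 1) := by
      calc (∑ q ∈ T, tau g q ^ 2) * (1 + μ) ^ k ≤ (4 * cst a / Real.sqrt (Nn n) * μ) * (1 + μ) ^ k := by
            gcongr
        _ = 4 * cst a * s * (μ * (1 + μ) ^ k) := by rw [hs]; ring
        _ ≤ 4 * cst a * s * ((1 + μ) * (1 + μ) ^ k) := by gcongr; linarith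
        _ = _ := by rw [pow_succ]; ring
    rw [abs_le]
    constructor
    · linarith
    · have : 0 ≤ 4 * cst a * s * (1 + μ) ^ (k + 1) := by positivity
      linarith
  have hI3 : |I - μ ^ k / (k.factorial : ℝ)| ≤ (C + 4 * cst a) * s * (1 + μ) ^ (k + 1) := by
    calc |I - μ ^ k / (k.factorial : ℝ)| = |(I - Es (tau g) k T) + (Es (tau g) k T - μ ^ k / (k.factorial : ℝ))| := by
          congr 1; ring
      _ ≤ |I - Es (tau g) k T| + |Es (tau g) k T - μ ^ k / (k.factorial : ℝ)| := abs_add_le _ _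
      _ ≤ C * s * (1 + μ) ^ k + 4 * cst a * s * (1 + μ) ^ (k + 1) := add_le_add hI1 hI2
      _ ≤ C * s * (1 + μ) ^ (k + 1) + 4 * cst a * s * (1 + μ) ^ (k + 1) := by
          have : (1 + μ) ^ k ≤ (1 + μ) ^ (k + 1) := pow_le_pow_right₀ (by linarith) (by omega)
          gcongr
      _ = _ := by ring
  -- the size of `s`
  have hsx : s ≤ 2 * Real.exp (-(xx n / 2)) := by
    have h5 : Real.exp (xx n / 2) / 2 ≤ Real.sqrt (Nn n) := by
      refine Real.le_sqrt_of_sq_le ?_
      have h6 := half_le_Nn n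
      have e : (Real.exp (xx n / 2) / 2) ^ 2 = Real.exp (xx n) / 4 := by
        rw [div_pow, ← Real.exp_nat_mul]
        congr 2
        · push_cast; ring
        · norm_num
      rw [e]
      have := Real.exp_pos (xx n)
      linarith
    have h6 : (Real.exp (xx n / 2) / 2)⁻¹ = 2 * Real.exp (-(xx n / 2)) := by
      rw [Real.exp_neg, inv_div]
      rfl
    rw [← h6, hs]
    exact inv_anti₀ (by positivity) h5
  have hμx : 1 + μ ≤ 1 + |2 * cst a| * xx n ^ 4 := by
    rw [abs_of_pos (by positivity : (0 : ℝ) < 2 * cst a), xx_four]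
    linarith [hn1.2]
  calc μ ^ K * |I - μ ^ k / (k.factorial : ℝ)| ≤ (1 + μ) ^ K * ((C + 4 * cst a) * s * (1 + μ) ^ (k + 1)) := by
        gcongr
        linarith
    _ = (C + 4 * cst a) * ((1 + μ) ^ (k + K + 1) * s) := by ring
    _ ≤ (C + 4 * cst a) * ((1 + |2 * cst a| * xx n ^ 4) ^ (k + K + 1) * (2 * Real.exp (-(xx n / 2)))) := by
        gcongr
    _ = _ := by ring

lemma int_Cn (h : Coeffs P r c) (g : ℕ → ℝ) (m : ℕ) (T : Finset ℕ) :
    Integrable (fun ω => (Cn g m c T ω : ℝ)) P := by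
  refine Integrable.of_bound (C := (T.card : ℝ)) ?_ (Eventually.of_forall fun ω => ?_)
  · exact ((measurable_from_nat (f := fun x : ℕ => (x : ℝ))).comp (h.measurable_Cn g m T)).aestronglyMeasurable
  · rw [Real.norm_of_nonneg (Nat.cast_nonneg _)]
    exact_mod_cast Cn_le g m c T ω

/-- the mean number of exponents up to `N` is `O (1 + log N)` -/
lemma mean_le (h : Coeffs P r c) {g : ℕ → ℝ} {a : ℝ} (ha : 0 < a)
    (hg : Tendsto (fun p : ℕ => g p / p) atTop (𝓝 a)) (m : ℕ) :
    ∃ B : ℝ, 0 < B ∧ ∀ N : ℕ, 1 ≤ N → ∫ ω, (Cn g m c (TT 0 N) ω : ℝ) ∂P ≤ B * (1 + Real.log N) := by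
  have hc := cst_pos ha
  obtain ⟨C, hC, Z, hZ⟩ := fact2 h ha hg m 1
  obtain ⟨Z', hZ'⟩ := tau_rho ha hg one_pos
  obtain ⟨C', hC', hR⟩ := rho_sum ha
  set Z0 := max (max Z Z') 1 with hZ0
  have hZ01 : (1 : ℝ) ≤ Z0 := by exact_mod_cast le_max_right _ _
  refine ⟨Z0 + 2 * (1 + C) * (cst a + C'), by positivity, fun N hN => ?_⟩
  have hlog : 0 ≤ Real.log N := Real.log_natCast_nonneg N
  have hsmall : ∀ M : ℕ, M ≤ Z0 → ∫ ω, (Cn g m c (TT 0 M) ω : ℝ) ∂P ≤ Z0 := by
    intro M hM
    have h1 : ∫ ω, (Cn g m c (TT 0 M) ω : ℝ) ∂P ≤ ∫ _ω, (Z0 : ℝ) ∂P := by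
      refine integral_mono (int_Cn h g m _) (integrable_const _) fun ω => ?_
      have h2 : Cn g m c (TT 0 M) ω ≤ Z0 := ((Cn_le g m c (TT 0 M) ω).trans (TT_card_le M)).trans hM
      exact Nat.cast_le.2 h2
    refine h1.trans (le_of_eq ?_)
    simp
  rcases le_or_gt N Z0 with h1 | h1
  · refine (hsmall N h1).trans ?_
    have : 0 ≤ 2 * (1 + C) * (cst a + C') * (1 + Real.log N) := by positivity
    nlinarith
  · have h2 : ∫ ω, (Cn g m c (TT 0 N) ω : ℝ) ∂P =
        ∫ ω, (Cn g m c (TT 0 Z0) ω : ℝ) ∂P + ∫ ω, (Cn g m c (TT Z0 N) ω : ℝ) ∂P := by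
      rw [← integral_add (int_Cn h g m _) (int_Cn h g m _)]
      refine integral_congr_ae (Eventually.of_forall fun ω => ?_)
      simp only
      rw [Cn_split g m c h1.le ω]
      push_cast
      rfl
    have hTq : ∀ q ∈ TT Z0 N, Z0 ≤ q := by
      intro q hq
      simp only [TT, Finset.mem_filter, Finset.mem_Ioc] at hq
      omega
    have h3 := hZ Z0 ((le_max_left _ _).trans (le_max_left _ _)) (TT Z0 N) hTq
    obtain ⟨h4, -⟩ := Es_bounds (tau_nonneg g) (TT Z0 N) 1
    simp only [Nat.choose_one_right] at h3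
    rw [pow_one, Nat.factorial_one, Nat.cast_one, div_one] at h4
    have h5 : ∑ q ∈ TT Z0 N, tau g q ≤ 2 * (cst a * Real.log N + C') := by
      calc ∑ q ∈ TT Z0 N, tau g q ≤ ∑ q ∈ TT Z0 N, 2 * rho a q := by
            refine Finset.sum_le_sum fun q hq => ?_
            have h6 := hZ' q (((le_max_right _ _).trans (le_max_left _ _)).trans (hTq q hq))
            have := (abs_le.1 h6).2
            linarith
        _ = 2 * ∑ q ∈ TT Z0 N, rho a q := by rw [Finset.mul_sum]
        _ ≤ 2 * ∑ q ∈ TT 0 N, rho a q := by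
            rw [TT_sum h1.le]
            have : 0 ≤ ∑ q ∈ TT 0 Z0, rho a q := Finset.sum_nonneg fun q _ => rho_nonneg ha q
            linarith
        _ ≤ _ := by
            have := (abs_le.1 (hR N hN)).2
            linarith
    have hEs0 := Es_nonneg (tau_nonneg g) 1 (TT Z0 N)
    have h6 : C / Z0 ≤ C := div_le_self hC.le hZ01
    have h7 : ∫ ω, (Cn g m c (TT Z0 N) ω : ℝ) ∂P ≤ (1 + C) * (2 * (cst a * Real.log N + C')) := by
      have h8 := (abs_le.1 h3).2
      have h9 : C / Z0 * Es (tau g) 1 (TT Z0 N) ≤ C * Es (tau g) 1 (TT Z0 N) :=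
        mul_le_mul_of_nonneg_right h6 hEs0
      have h10 : (1 + C) * Es (tau g) 1 (TT Z0 N) ≤ (1 + C) * (2 * (cst a * Real.log N + C')) := by
        have := h4.trans h5
        gcongr
      linarith
    rw [h2]
    have h8 := hsmall Z0 le_rfl
    have h9 : (Z0 : ℝ) ≤ Z0 * (1 + Real.log N) := by nlinarith
    have h10 : (1 + C) * (2 * (cst a * Real.log N + C')) ≤ 2 * (1 + C) * (cst a + C') * (1 + Real.log N) := by
      have : cst a * Real.log N + C' ≤ (cst a + C') * (1 + Real.log N) := by nlinarith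
      calc (1 + C) * (2 * (cst a * Real.log N + C')) = 2 * (1 + C) * (cst a * Real.log N + C') := by ring
        _ ≤ 2 * (1 + C) * ((cst a + C') * (1 + Real.log N)) := by gcongr
        _ = _ := by ring
    linarith

/-- the mean number of exponents up to `n` is close to `mu g n` -/
lemma mean_close (h : Coeffs P r c) {g : ℕ → ℝ} {a : ℝ} (ha : 0 < a)
    (hg : Tendsto (fun p : ℕ => g p / p) atTop (𝓝 a)) (m : ℕ) :
    Tendsto (fun n : ℕ => (∫ ω, (Cn g m c (TT 0 n) ω : ℝ) ∂P - mu g n) / Real.sqrt (Real.log n)) atTop (𝓝 0) := by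
  obtain ⟨B, hB, hM⟩ := mean_le h ha hg m
  have h1 := hmom h ha hg m 1 0
  have h2 := small_lim (B + 1) B
  refine squeeze_zero_norm' ?_ h2
  filter_upwards [h1.eventually_lt_const one_pos, Nn_le_self, log_lim.eventually_gt_atTop 0] with n hn1 hn2 hn3
  simp only [Nat.choose_one_right, pow_zero, one_mul, pow_one, Nat.factorial_one, Nat.cast_one, div_one] at hn1
  have h3 : ∫ ω, (Cn g m c (TT 0 n) ω : ℝ) ∂P =
      ∫ ω, (Cn g m c (TT 0 (Nn n)) ω : ℝ) ∂P + ∫ ω, (Cn g m c (TT (Nn n) n) ω : ℝ) ∂P := by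
    rw [← integral_add (int_Cn h g m _) (int_Cn h g m _)]
    refine integral_congr_ae (Eventually.of_forall fun ω => ?_)
    simp only
    rw [Cn_split g m c hn2 ω]
    push_cast
    rfl
  have h4 := hM (Nn n) (one_le_Nn n)
  have h5 : B * (1 + Real.log (Nn n)) ≤ B * (1 + xx n) := by
    have := log_Nn_le n
    gcongr
  have h6 : 0 ≤ ∫ ω, (Cn g m c (TT 0 (Nn n)) ω : ℝ) ∂P := integral_nonneg fun ω => Nat.cast_nonneg _
  have hs : 0 < Real.sqrt (Real.log n) := Real.sqrt_pos.2 hn3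
  rw [Real.norm_eq_abs, abs_div, abs_of_pos hs]
  refine div_le_div_of_nonneg_right ?_ hs.le
  rw [h3, abs_le]
  have h7 := abs_lt.1 hn1
  constructor <;> linarith [h7.1, h7.2]

/-- **Central limit theorem**, for any centering close to `mu g n` -/
theorem clt (h : Coeffs P r c) {g : ℕ → ℝ} {a : ℝ} (ha : 0 < a)
    (hg : Tendsto (fun p : ℕ => g p / p) atTop (𝓝 a)) (m : ℕ) {b : ℕ → ℝ}
    (hb : Tendsto (fun n : ℕ => (b n - mu g n) / Real.sqrt (Real.log n)) atTop (𝓝 0)) (x : ℝ) :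
    Tendsto (fun n : ℕ => P.real {ω | (Cn g m c (TT 0 n) ω : ℝ) - b n ≤ x * Real.sqrt (cst a * Real.log n)})
      atTop (𝓝 ((gaussianReal 0 1).real (Set.Iic x))) := by
  have hc := cst_pos ha
  obtain ⟨B, hB, hM⟩ := mean_le h ha hg m
  set v : ℕ → ℝ := fun n => cst a * Real.log n with hv
  set Xn : ℕ → Ω → ℝ := fun n ω => ((Cn g m c (TT 0 n) ω : ℝ) - b n) / Real.sqrt (v n) with hXn
  set Zn : ℕ → Ω → ℝ := fun n ω => ((Cn g m c (TT (Nn n) n) ω : ℝ) - mu g n) / Real.sqrt (v n) with hZn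
  have hmC : ∀ T, Measurable fun ω => (Cn g m c T ω : ℝ) := fun T =>
    (measurable_from_nat (f := fun x : ℕ => (x : ℝ))).comp (h.measurable_Cn g m T)
  have hXm : ∀ n, Measurable (Xn n) := fun n => ((hmC _).sub_const _).div_const _
  have hZm : ∀ n, Measurable (Zn n) := fun n => ((hmC _).sub_const _).div_const _
  have hXi : ∀ n, Integrable (Xn n) P := fun n => ((int_Cn h g m _).sub (integrable_const _)).div_const _
  have hZi : ∀ n, Integrable (Zn n) P := fun n => ((int_Cn h g m _).sub (integrable_const _)).div_const _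
  -- the truncated count
  have hchar : ∀ t : ℝ, Tendsto (fun n => ∫ ω, Complex.exp (Complex.I * ((t * Zn n ω : ℝ) : ℂ)) ∂P) atTop
      (𝓝 (Complex.exp (-(t : ℂ) ^ 2 / 2))) := by
    intro t
    have hvm : Tendsto (fun n => v n / mu g n) atTop (𝓝 1) := by
      have := (mu_lim ha hg).inv₀ one_ne_zero
      rw [inv_one] at this
      exact this.congr fun n => by rw [inv_div]
    have h1 := clt_char (P := P) (N := fun n ω => Cn g m c (TT (Nn n) n) ω)
      (fun n => h.measurable_Cn g m _) (fun n => ⟨_, fun ω => Cn_le g m c _ ω⟩) (mu_nonneg g)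
      (mu_atTop ha hg) hvm (fun k K => hmom h ha hg m k K) t
    refine h1.congr fun n => ?_
    refine integral_congr_ae (Eventually.of_forall fun ω => ?_)
    simp only [hZn]
    congr 3
    ring
  have hclose : Tendsto (fun n => ∫ ω, |Xn n ω - Zn n ω| ∂P) atTop (𝓝 0) := by
    have h1 := small_lim B B
    have h2 : Tendsto (fun n : ℕ => |(b n - mu g n) / Real.sqrt (Real.log n)|) atTop (𝓝 0) := by
      have := hb.abs
      rwa [abs_zero] at this
    have h3 := (h1.add h2).const_mul (1 / Real.sqrt (cst a))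
    rw [add_zero, mul_zero] at h3
    refine squeeze_zero' (Eventually.of_forall fun n => integral_nonneg fun ω => abs_nonneg _) ?_ h3
    filter_upwards [Nn_le_self, log_lim.eventually_gt_atTop 0] with n hn1 hn2
    have hs : 0 < Real.sqrt (Real.log n) := Real.sqrt_pos.2 hn2
    have hsc : 0 < Real.sqrt (cst a) := Real.sqrt_pos.2 hc
    have hsv : Real.sqrt (v n) = Real.sqrt (cst a) * Real.sqrt (Real.log n) := Real.sqrt_mul hc.le _
    have h4 : ∀ ω, |Xn n ω - Zn n ω| ≤
        ((Cn g m c (TT 0 (Nn n)) ω : ℝ) + |b n - mu g n|) / Real.sqrt (v n) := by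
      intro ω
      have e : Xn n ω - Zn n ω = ((Cn g m c (TT 0 (Nn n)) ω : ℝ) - (b n - mu g n)) / Real.sqrt (v n) := by
        simp only [hXn, hZn]
        rw [Cn_split g m c hn1 ω]
        push_cast
        ring
      rw [e, abs_div, abs_of_nonneg (Real.sqrt_nonneg _)]
      refine div_le_div_of_nonneg_right ?_ (Real.sqrt_nonneg _)
      refine (abs_sub _ _).trans ?_
      rw [Nat.abs_cast]
    have h5 : ∫ ω, |Xn n ω - Zn n ω| ∂P ≤
        ∫ ω, ((Cn g m c (TT 0 (Nn n)) ω : ℝ) + |b n - mu g n|) / Real.sqrt (v n) ∂P := by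
      refine integral_mono ((hXi n).sub (hZi n)).abs
        (((int_Cn h g m _).add (integrable_const _)).div_const _) h4
    refine h5.trans ?_
    rw [integral_div, integral_add (int_Cn h g m _) (integrable_const _), integral_const]
    simp only [probReal_univ, one_smul]
    rw [hsv, abs_div, abs_of_pos hs, ← add_div, one_div_mul_eq_div, div_div, mul_comm (Real.sqrt (Real.log n))]
    refine div_le_div_of_nonneg_right ?_ (by positivity)
    have h6 := hM (Nn n) (one_le_Nn n)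
    have h7 : B * (1 + Real.log (Nn n)) ≤ B + B * xx n := by
      have := mul_le_mul_of_nonneg_left (log_Nn_le n) hB.le
      linarith
    linarith
  have hfin := levy_cdf hXm (fun t => char_close hXm hZm (fun n => ((hXi n).sub (hZi n)).abs) hclose t (hchar t)) x
  refine hfin.congr' ?_
  filter_upwards [log_lim.eventually_gt_atTop 0] with n hn
  congr 1
  ext ω
  have hs : 0 < Real.sqrt (v n) := Real.sqrt_pos.2 (by positivity)
  simp only [hXn, Set.mem_ofPred_eq]
  rw [div_le_iff₀ hs]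

end

end Pool.Agent.Helper18K9.CLT
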